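import Mathlib

/-!
# Records of sequences with small negative variation
-/

namespace Q292.OPF

/-- negative variation -/
def nv : ℕ → List ℕ → ℕ
  | _, [] => 0
  | r, x :: l => (r - x) + nv x l

/-- total variation -/
def tv : ℕ → List ℕ → ℕ
  | _, [] => 0
  | r, x :: l => ((r - x) + (x - r)) + tv x l

/-- number of small increments -/
def sm (D : ℕ) : ℕ → List ℕ → ℕ
  | _, [] => 0
  | r, x :: l => (if (r - x) + (x - r) ≤ D then 1 else 0) + sm D x l

/-- number of elements which are not strict records -/
def bad : ℕ → List ℕ → ℕ
  | _, [] => 0
  | M, x :: l => (if x ≤ M then 1 else 0) + bad (max M x) l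

theorem bad_le (D : ℕ) (l : List ℕ) : ∀ r M, r ≤ M →
    (D + 1) * bad M l ≤ (D + 1) * sm D r l + 2 * nv r l + (M - r) := by
  induction l with
  | nil => intro r M _; simp [bad]
  | cons x l ih =>
    intro r M hM
    have h := ih x (max M x) (le_max_right _ _)
    simp only [bad, sm, nv, Nat.mul_add]
    by_cases h1 : x ≤ M
    · rw [max_eq_left h1] at h ⊢
      rw [if_pos h1]
      split_ifs with h2
      · omega
      · omega
    · rw [max_eq_right (by omega)] at h ⊢
      rw [if_neg h1]
      split_ifs with h2
      · omega
      · omega

/-- the last element -/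
def lst : ℕ → List ℕ → ℕ
  | r, [] => r
  | _, x :: l => lst x l

theorem tv_eq (l : List ℕ) : ∀ r, tv r l + r = lst r l + 2 * nv r l := by
  induction l with
  | nil => intro r; simp [tv, lst, nv]
  | cons x l ih =>
    intro r
    have h := ih x
    simp only [tv, lst, nv]
    omega

theorem lst_le (l : List ℕ) (n : ℕ) (h : ∀ x ∈ l, x ≤ n) : ∀ r ≤ n, lst r l ≤ n := by
  induction l with
  | nil => intro r hr; exact hr
  | cons x l ih =>
    intro r _
    exact ih (fun y hy => h y (List.mem_cons_of_mem _ hy)) x (h x List.mem_cons_self)

theorem nv_sorted (l : List ℕ) : ∀ r, (∀ x ∈ l, r ≤ x) → l.Pairwise (· ≤ ·) → nv r l = 0 := by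
  induction l with
  | nil => intro r _ _; rfl
  | cons x l ih =>
    intro r h hp
    rw [List.pairwise_cons] at hp
    simp only [nv]
    rw [ih x hp.1 hp.2]
    have := h x List.mem_cons_self
    omega

section
variable {α : Type*} (px py : α → ℕ)

/-- strict records in both coordinates -/
def recs : ℕ → ℕ → List α → List α
  | _, _, [] => []
  | M, N, a :: l =>
    if M < px a ∧ N < py a then a :: recs (px a) (py a) l
    else recs (max M (px a)) (max N (py a)) l

theorem recs_length (l : List α) : ∀ M N,
    l.length ≤ (recs px py M N l).length + bad M (l.map px) + bad N (l.map py) := by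
  induction l with
  | nil => intro M N; simp [recs, bad]
  | cons a l ih =>
    intro M N
    simp only [recs, List.map_cons, bad, List.length_cons]
    split_ifs with h1 h2 h3 h2 h3 <;> try omega
    · have h := ih (px a) (py a)
      rw [max_eq_right h1.1.le, max_eq_right h1.2.le, List.length_cons]
      omega
    · have h := ih (max M (px a)) (max N (py a))
      omega
    · have h := ih (max M (px a)) (max N (py a))
      omega
    · have h := ih (max M (px a)) (max N (py a))
      omega

theorem recs_sublist (l : List α) : ∀ M N, (recs px py M N l).Sublist l := by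
  induction l with
  | nil => intro M N; simp [recs]
  | cons a l ih =>
    intro M N
    simp only [recs]
    split_ifs with h1
    · exact (ih _ _).cons_cons a
    · exact (ih _ _).cons a

theorem recs_gt (l : List α) : ∀ M N, ∀ a ∈ recs px py M N l, M < px a ∧ N < py a := by
  induction l with
  | nil => intro M N a ha; simp [recs] at ha
  | cons b l ih =>
    intro M N a ha
    simp only [recs] at ha
    split_ifs at ha with h1
    · rcases List.mem_cons.1 ha with rfl | ha
      · exact h1
      · have := ih _ _ a ha
        exact ⟨h1.1.trans this.1, h1.2.trans this.2⟩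
    · have := ih _ _ a ha
      exact ⟨lt_of_le_of_lt (le_max_left _ _) this.1, lt_of_le_of_lt (le_max_left _ _) this.2⟩

theorem recs_pairwise (l : List α) : ∀ M N,
    (recs px py M N l).Pairwise fun a b => px a < px b ∧ py a < py b := by
  induction l with
  | nil => intro M N; simp [recs]
  | cons a l ih =>
    intro M N
    simp only [recs]
    split_ifs with h1
    · rw [List.pairwise_cons]
      exact ⟨fun b hb => recs_gt px py l _ _ b hb, ih _ _⟩
    · exact ih _ _

end

/-- The conclusion used twice: few small increments give many strict records. -/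
theorem many_recs {α : Type*} (px py : α → ℕ) (l : List α) {s : ℕ} (hs : 1 ≤ s)
    (hnv : nv 0 (l.map px) + nv 0 (l.map py) ≤ l.length)
    (hx : s * sm (s - 1) 0 (l.map px) < l.length)
    (hy : s * sm (s - 1) 0 (l.map py) < l.length) :
    s * l.length ≤ s * (recs px py 0 0 l).length + 4 * l.length := by
  have h1 := recs_length px py l 0 0
  have h2 := bad_le (s - 1) (l.map px) 0 0 le_rfl
  have h3 := bad_le (s - 1) (l.map py) 0 0 le_rfl
  have h4 : s - 1 + 1 = s := by omega
  rw [h4] at h2 h3
  have h5 := Nat.mul_le_mul_left s h1
  simp only [Nat.mul_add] at h5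
  omega

end Q292.OPF
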