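import Mathlib
import Pool.Agent.Q292.OPF.Rec

/-!
# Counting lists with many small increments
-/

namespace Q292.OPF

open Finset

section
variable {α : Type*} [DecidableEq α]

/-- lists of length `c` with entries in `B` -/
def lists (B : Finset α) : ℕ → Finset (List α)
  | 0 => {[]}
  | c + 1 => (B ×ˢ lists B c).image fun p => p.1 :: p.2

theorem mem_lists (B : Finset α) (c : ℕ) : ∀ l : List α,
    l ∈ lists B c ↔ l.length = c ∧ ∀ a ∈ l, a ∈ B := by
  induction c with
  | zero =>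
    intro l
    simp only [lists, mem_singleton, List.length_eq_zero_iff]
    constructor
    · rintro rfl
      simp
    · exact fun h => h.1
  | succ c ih =>
    intro l
    simp only [lists, mem_image, mem_product, Prod.exists]
    constructor
    · rintro ⟨a, l', ⟨h1, h2⟩, rfl⟩
      rw [ih] at h2
      refine ⟨by simp [h2.1], ?_⟩
      intro b hb
      rcases List.mem_cons.1 hb with rfl | hb
      · exact h1
      · exact h2.2 b hb
    · rintro ⟨h1, h2⟩
      cases l with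
      | nil => simp at h1
      | cons a l' =>
        refine ⟨a, l', ⟨h2 a List.mem_cons_self, ?_⟩, rfl⟩
        rw [ih]
        exact ⟨by simpa using h1, fun b hb => h2 b (List.mem_cons_of_mem _ hb)⟩

variable (px py : α → ℕ) (θ K : ℝ) (D : ℕ)

/-- weight of one step -/
noncomputable def w1 (r x : ℕ) : ℝ :=
  θ ^ ((r - x) + (x - r)) * (if (r - x) + (x - r) ≤ D then K else 1)

/-- weight of a list -/
noncomputable def wt : ℕ → ℕ → List α → ℝ
  | _, _, [] => 1
  | r, s, a :: l => (w1 θ K D r (px a) * θ ^ ((s - py a) + (py a - s))) * wt (px a) (py a) l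

omit [DecidableEq α] in
theorem wt_eq (l : List α) : ∀ r s, wt px py θ K D r s l =
    θ ^ (tv r (l.map px) + tv s (l.map py)) * K ^ (sm D r (l.map px)) := by
  induction l with
  | nil => intro r s; simp [wt, tv, sm]
  | cons a l ih =>
    intro r s
    simp only [wt, List.map_cons, tv, sm, w1, ih]
    split_ifs with h
    · ring
    · ring

theorem sum_wt (hθ : 0 ≤ θ) (hK : 0 ≤ K) (B : Finset α) (A : ℝ)
    (hA : ∀ r s, ∑ a ∈ B, w1 θ K D r (px a) * θ ^ ((s - py a) + (py a - s)) ≤ A) (c : ℕ) :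
    ∀ r s, ∑ l ∈ lists B c, wt px py θ K D r s l ≤ A ^ c := by
  have hA0 : 0 ≤ A := by
    refine le_trans (Finset.sum_nonneg fun a _ => ?_) (hA 0 0)
    unfold w1
    split_ifs <;> positivity
  induction c with
  | zero => intro r s; simp [lists, wt]
  | succ c ih =>
    intro r s
    simp only [lists]
    rw [sum_image]
    · rw [sum_product]
      calc ∑ a ∈ B, ∑ l ∈ lists B c, wt px py θ K D r s (a :: l)
          = ∑ a ∈ B, (w1 θ K D r (px a) * θ ^ ((s - py a) + (py a - s))) *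
            ∑ l ∈ lists B c, wt px py θ K D (px a) (py a) l := by
            refine Finset.sum_congr rfl fun a _ => ?_
            rw [Finset.mul_sum]
            rfl
        _ ≤ ∑ a ∈ B, (w1 θ K D r (px a) * θ ^ ((s - py a) + (py a - s))) * A ^ c := by
            refine Finset.sum_le_sum fun a _ => mul_le_mul_of_nonneg_left (ih _ _) ?_
            unfold w1
            split_ifs <;> positivity
        _ = (∑ a ∈ B, (w1 θ K D r (px a) * θ ^ ((s - py a) + (py a - s)))) * A ^ c := by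
            rw [Finset.sum_mul]
        _ ≤ A * A ^ c := mul_le_mul_of_nonneg_right (hA r s) (by positivity)
        _ = A ^ (c + 1) := by ring
    · rintro ⟨a, l⟩ _ ⟨b, l'⟩ _ h
      simp only [List.cons.injEq] at h
      exact Prod.ext h.1 h.2

/-- counting -/
theorem card_bound (hθ : 0 ≤ θ) (hθ1 : θ ≤ 1) {k : ℝ} (hk : 1 ≤ k) {s : ℕ} (hK : K = k ^ s)
    (B : Finset α) (A : ℝ)
    (hA : ∀ r s, ∑ a ∈ B, w1 θ K D r (px a) * θ ^ ((s - py a) + (py a - s)) ≤ A) (c M : ℕ)
    (C : Finset (List α)) (hC : C ⊆ lists B c)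
    (h1 : ∀ l ∈ C, tv 0 (l.map px) + tv 0 (l.map py) ≤ M)
    (h2 : ∀ l ∈ C, c ≤ s * sm D 0 (l.map px)) :
    (#C : ℝ) * (θ ^ M * k ^ c) ≤ A ^ c := by
  have hk0 : 0 ≤ k := by linarith
  have hK0 : 0 ≤ K := by
    rw [hK]
    positivity
  refine le_trans ?_ (sum_wt px py θ K D hθ hK0 B A hA c 0 0)
  calc (#C : ℝ) * (θ ^ M * k ^ c) = ∑ l ∈ C, (θ ^ M * k ^ c) := by
        rw [sum_const, nsmul_eq_mul]
    _ ≤ ∑ l ∈ C, wt px py θ K D 0 0 l := by
        refine Finset.sum_le_sum fun l hl => ?_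
        rw [wt_eq]
        refine mul_le_mul ?_ ?_ (by positivity) (by positivity)
        · exact pow_le_pow_of_le_one hθ hθ1 (h1 l hl)
        · rw [hK, ← pow_mul]
          exact pow_le_pow_right₀ hk (h2 l hl)
    _ ≤ ∑ l ∈ lists B c, wt px py θ K D 0 0 l := by
        refine Finset.sum_le_sum_of_subset_of_nonneg hC fun l _ _ => ?_
        rw [wt_eq]
        positivity

end

/-! ### One step sums -/

theorem geom_le_inv {θ : ℝ} (hθ : 0 ≤ θ) (hθ1 : θ < 1) (n : ℕ) :
    ∑ i ∈ range n, θ ^ i ≤ 1 / (1 - θ) := by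
  rw [le_div_iff₀ (by linarith)]
  have h := mul_neg_geom_sum θ n
  have h2 : 0 ≤ θ ^ n := pow_nonneg hθ n
  linarith

theorem geo_dist {θ : ℝ} (hθ : 0 ≤ θ) (hθ1 : θ < 1) (N r : ℕ) :
    ∑ u ∈ range N, θ ^ ((r - u) + (u - r)) ≤ 2 / (1 - θ) := by
  have h1 : ∑ u ∈ range N, θ ^ ((r - u) + (u - r)) ≤
      ∑ u ∈ (range N).filter (fun u => u ≤ r), θ ^ (r - u) +
      ∑ u ∈ (range N).filter (fun u => ¬ u ≤ r), θ ^ (u - r) := by
    rw [← Finset.sum_filter_add_sum_filter_not (range N) (fun u => u ≤ r)]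
    refine add_le_add (Finset.sum_le_sum fun u hu => ?_) (Finset.sum_le_sum fun u hu => ?_)
    · rw [mem_filter] at hu
      have : (r - u) + (u - r) = r - u := by omega
      rw [this]
    · rw [mem_filter] at hu
      have : (r - u) + (u - r) = u - r := by omega
      rw [this]
  have h2 : ∑ u ∈ (range N).filter (fun u => u ≤ r), θ ^ (r - u) ≤ 1 / (1 - θ) := by
    refine le_trans ?_ (geom_le_inv hθ hθ1 (r + 1))
    rw [← sum_image (f := fun j => θ ^ j) (g := fun u => r - u) (s := (range N).filter (fun u => u ≤ r))]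
    · refine Finset.sum_le_sum_of_subset_of_nonneg ?_ fun i _ _ => pow_nonneg hθ i
      intro j hj
      obtain ⟨u, hu, rfl⟩ := mem_image.1 hj
      rw [mem_range]
      omega
    · intro u hu v hv h
      have h3 := (mem_filter.1 hu).2
      have h4 := (mem_filter.1 hv).2
      simp only at h
      omega
  have h3 : ∑ u ∈ (range N).filter (fun u => ¬ u ≤ r), θ ^ (u - r) ≤ 1 / (1 - θ) := by
    refine le_trans ?_ (geom_le_inv hθ hθ1 N)
    rw [← sum_image (f := fun j => θ ^ j) (g := fun u => u - r) (s := (range N).filter (fun u => ¬ u ≤ r))]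
    · refine Finset.sum_le_sum_of_subset_of_nonneg ?_ fun i _ _ => pow_nonneg hθ i
      intro j hj
      obtain ⟨u, hu, rfl⟩ := mem_image.1 hj
      rw [mem_filter, mem_range] at hu
      rw [mem_range]
      omega
    · intro u hu v hv h
      have h3 := (mem_filter.1 hu).2
      have h4 := (mem_filter.1 hv).2
      simp only at h
      omega
  have h4 : 2 / (1 - θ) = 1 / (1 - θ) + 1 / (1 - θ) := by ring
  rw [h4]
  linarith

theorem small_card (N r D : ℕ) :
    #{u ∈ range N | (r - u) + (u - r) ≤ D} ≤ 2 * D + 1 := by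
  have h1 : {u ∈ range N | (r - u) + (u - r) ≤ D} ⊆ Icc (r - D) (r + D) := by
    intro u hu
    rw [mem_filter] at hu
    rw [mem_Icc]
    omega
  refine (card_le_card h1).trans ?_
  rw [Nat.card_Icc]
  omega

theorem w1_sum {θ K : ℝ} (hθ : 0 ≤ θ) (hθ1 : θ < 1) (hK : 1 ≤ K) (D N r : ℕ) :
    ∑ u ∈ range N, w1 θ K D r u ≤ 2 / (1 - θ) + (2 * D + 1) * K := by
  have h1 : ∀ u ∈ range N, w1 θ K D r u ≤ θ ^ ((r - u) + (u - r)) +
      (if (r - u) + (u - r) ≤ D then K else 0) := by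
    intro u _
    have h2 : 0 ≤ θ ^ ((r - u) + (u - r)) := pow_nonneg hθ _
    have h3 : θ ^ ((r - u) + (u - r)) ≤ 1 := pow_le_one₀ hθ hθ1.le
    unfold w1
    split_ifs
    · nlinarith
    · linarith
  refine (Finset.sum_le_sum h1).trans ?_
  rw [Finset.sum_add_distrib]
  refine add_le_add (geo_dist hθ hθ1 N r) ?_
  rw [← Finset.sum_filter, sum_const, nsmul_eq_mul]
  refine mul_le_mul_of_nonneg_right ?_ (by linarith)
  exact_mod_cast small_card N r D

/-- the one step sum over a set of points with multiplicity at most two -/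
theorem step_sum {α : Type*} [DecidableEq α] (px py : α → ℕ) {θ K : ℝ} (hθ : 0 ≤ θ)
    (hθ1 : θ < 1) (hK : 1 ≤ K) (D N : ℕ) (B : Finset α) (hB : ∀ a ∈ B, px a < N ∧ py a < N)
    (hm : ∀ u v, #{a ∈ B | px a = u ∧ py a = v} ≤ 2) (r s : ℕ) :
    ∑ a ∈ B, w1 θ K D r (px a) * θ ^ ((s - py a) + (py a - s)) ≤
      2 * ((2 / (1 - θ) + (2 * D + 1) * K) * (2 / (1 - θ))) := by
  have h0 : ∀ u v, 0 ≤ w1 θ K D r u * θ ^ ((s - v) + (v - s)) := by
    intro u v
    unfold w1
    split_ifs <;> positivity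
  have h1 : ∑ a ∈ B, w1 θ K D r (px a) * θ ^ ((s - py a) + (py a - s)) =
      ∑ p ∈ range N ×ˢ range N, ∑ a ∈ B with (px a, py a) = p,
        w1 θ K D r (px a) * θ ^ ((s - py a) + (py a - s)) := by
    rw [Finset.sum_fiberwise_of_maps_to]
    intro a ha
    rw [mem_product, mem_range, mem_range]
    exact hB a ha
  rw [h1]
  have h2 : ∀ p ∈ range N ×ˢ range N, ∑ a ∈ B with (px a, py a) = p,
      w1 θ K D r (px a) * θ ^ ((s - py a) + (py a - s)) ≤
      2 * (w1 θ K D r p.1 * θ ^ ((s - p.2) + (p.2 - s))) := by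
    intro p _
    have h3 : ∑ a ∈ B with (px a, py a) = p,
        w1 θ K D r (px a) * θ ^ ((s - py a) + (py a - s)) =
        ∑ a ∈ B with (px a, py a) = p, w1 θ K D r p.1 * θ ^ ((s - p.2) + (p.2 - s)) := by
      refine Finset.sum_congr rfl fun a ha => ?_
      rw [mem_filter] at ha
      rw [← ha.2]
    rw [h3, sum_const, nsmul_eq_mul]
    refine mul_le_mul_of_nonneg_right ?_ (h0 _ _)
    have h4 : {a ∈ B | (px a, py a) = p} = {a ∈ B | px a = p.1 ∧ py a = p.2} := by
      ext a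
      simp only [mem_filter, Prod.ext_iff]
    rw [h4]
    exact_mod_cast hm p.1 p.2
  refine (Finset.sum_le_sum h2).trans ?_
  rw [← Finset.mul_sum, Finset.sum_product]
  refine mul_le_mul_of_nonneg_left ?_ (by norm_num)
  have h5 : ∑ x ∈ range N, ∑ y ∈ range N, w1 θ K D r (x, y).1 *
      θ ^ ((s - (x, y).2) + ((x, y).2 - s)) =
      (∑ x ∈ range N, w1 θ K D r x) * ∑ y ∈ range N, θ ^ ((s - y) + (y - s)) := by
    rw [Finset.sum_mul_sum]
  rw [h5]
  refine mul_le_mul (w1_sum hθ hθ1 hK D N r) (geo_dist hθ hθ1 N s)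
    (Finset.sum_nonneg fun y _ => by positivity) ?_
  have h6 : 0 ≤ 2 / (1 - θ) := div_nonneg (by norm_num) (by linarith)
  have h7 : 0 ≤ (2 * (D : ℝ) + 1) * K := by positivity
  linarith

theorem exp_bound {h : ℝ} (h0 : 0 ≤ h) (h1 : h ≤ 1 / 2) : Real.exp (-(2 * h)) ≤ 1 - h := by
  have h2 := Real.add_one_le_exp (2 * h)
  rw [Real.exp_neg, inv_le_comm₀ (Real.exp_pos _) (by linarith), ← one_div,
    div_le_iff₀ (by linarith)]
  nlinarith [Real.exp_pos (2 * h)]

/-- **The counting bound.** -/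
theorem count {α : Type*} [DecidableEq α] (px py : α → ℕ) {h k : ℝ} (h0 : 0 < h)
    (h12 : h ≤ 1 / 2) (hk : 1 ≤ k) {s : ℕ} (hs : 1 ≤ s) (hks : k ^ s = 1 / h) (n c : ℕ)
    (hc : h * n ≤ c) (B : Finset α) (hB : ∀ a ∈ B, px a < n + 1 ∧ py a < n + 1)
    (hm : ∀ u v, #{a ∈ B | px a = u ∧ py a = v} ≤ 2)
    (C : Finset (List α)) (hC : C ⊆ lists B c)
    (h1 : ∀ l ∈ C, nv 0 (l.map px) + nv 0 (l.map py) ≤ c)
    (h2 : ∀ l ∈ C, c ≤ s * sm (s - 1) 0 (l.map px)) :
    (#C : ℝ) ≤ (4 * (2 * s + 1) * Real.exp 8 / (h ^ 2 * k)) ^ c := by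
  have hθ0 : 0 ≤ 1 - h := by linarith
  have hθ1 : 1 - h < 1 := by linarith
  have hK1 : 1 ≤ 1 / h := by
    rw [le_div_iff₀ h0]
    linarith
  have hstep := step_sum px py hθ0 hθ1 hK1 (s - 1) (n + 1) B hB hm
  have hA : 2 * ((2 / (1 - (1 - h)) + (2 * ((s - 1 : ℕ) : ℝ) + 1) * (1 / h)) * (2 / (1 - (1 - h)))) =
      4 * (2 * s + 1) / h ^ 2 := by
    have h11 : 1 - (1 - h) = h := by ring
    rw [Nat.cast_sub hs, h11]
    push_cast
    field_simp
    ring
  rw [hA] at hstep
  have htv : ∀ l ∈ C, tv 0 (l.map px) + tv 0 (l.map py) ≤ 2 * n + 2 * c := by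
    intro l hl
    have h3 := (mem_lists B c l).1 (hC hl)
    have h4 := tv_eq (l.map px) 0
    have h5 := tv_eq (l.map py) 0
    have h6 := lst_le (l.map px) n (fun x hx => by
      obtain ⟨a, ha, rfl⟩ := List.mem_map.1 hx
      have := hB a (h3.2 a ha)
      omega) 0 (Nat.zero_le _)
    have h7 := lst_le (l.map py) n (fun x hx => by
      obtain ⟨a, ha, rfl⟩ := List.mem_map.1 hx
      have := hB a (h3.2 a ha)
      omega) 0 (Nat.zero_le _)
    have h8 := h1 l hl
    omega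
  have hmain := card_bound px py (1 - h) (1 / h) (s - 1) hθ0 hθ1.le hk hks.symm B _ hstep c
    (2 * n + 2 * c) C hC htv h2
  have hexp : Real.exp (-(8 * (c : ℝ))) ≤ (1 - h) ^ (2 * n + 2 * c) := by
    have h3 : (Real.exp (-(2 * h))) ^ (2 * n + 2 * c) ≤ (1 - h) ^ (2 * n + 2 * c) :=
      pow_le_pow_left₀ (Real.exp_pos _).le (exp_bound h0.le h12) _
    refine le_trans ?_ h3
    rw [← Real.exp_nat_mul]
    apply Real.exp_le_exp.2
    push_cast
    have h4 : (0 : ℝ) ≤ c := Nat.cast_nonneg c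
    nlinarith
  have hexp' : Real.exp (-(8 * (c : ℝ))) = 1 / (Real.exp 8) ^ c := by
    rw [Real.exp_neg, mul_comm, Real.exp_nat_mul, one_div]
  have hkc : 0 < k ^ c := by positivity
  have h9 : (#C : ℝ) * (1 / (Real.exp 8) ^ c * k ^ c) ≤ (4 * (2 * s + 1) / h ^ 2) ^ c := by
    refine le_trans ?_ hmain
    rw [← hexp']
    exact mul_le_mul_of_nonneg_left (mul_le_mul_of_nonneg_right hexp hkc.le) (Nat.cast_nonneg _)
  have he : 0 < (Real.exp 8) ^ c := pow_pos (Real.exp_pos _) c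
  have h10 : 4 * (2 * (s : ℝ) + 1) * Real.exp 8 / (h ^ 2 * k) =
      (4 * (2 * s + 1) / h ^ 2) * Real.exp 8 / k := by
    field_simp
  rw [h10, div_pow, mul_pow, le_div_iff₀ hkc]
  have h11 : (#C : ℝ) * k ^ c = (#C : ℝ) * (1 / (Real.exp 8) ^ c * k ^ c) * (Real.exp 8) ^ c := by
    field_simp
  rw [h11]
  exact mul_le_mul_of_nonneg_right h9 he.le

end Q292.OPF
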