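import Mathlib
import Pool.Agent.W533.LP.Defs

/-!
# Chains and the last passage time
-/

namespace Q292.OPF

open Pool.Agent.W533.LP

theorem T_zero_left (W : ℕ → ℕ → ℕ) (n : ℕ) : Pool.Agent.W533.LP.T W 0 n = 0 := by
  unfold Pool.Agent.W533.LP.T
  induction n with
  | zero => rw [G]
  | succ n ih =>
    rw [G, ih]
    rfl

theorem T_zero_right (W : ℕ → ℕ → ℕ) (m : ℕ) : Pool.Agent.W533.LP.T W m 0 = 0 := by
  unfold Pool.Agent.W533.LP.T
  induction m with
  | zero => rw [G]
  | succ m ih =>
    rw [G, ih]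
    rfl

theorem T_succ (W : ℕ → ℕ → ℕ) (m n : ℕ) : Pool.Agent.W533.LP.T W (m + 1) (n + 1) =
    max (Pool.Agent.W533.LP.T W m (n + 1)) (Pool.Agent.W533.LP.T W (m + 1) n) + W m n := by
  unfold Pool.Agent.W533.LP.T
  rw [G]

theorem T_mono_left (W : ℕ → ℕ → ℕ) (m n : ℕ) :
    Pool.Agent.W533.LP.T W m n ≤ Pool.Agent.W533.LP.T W (m + 1) n := by
  cases n with
  | zero => rw [T_zero_right, T_zero_right]
  | succ n =>
    rw [T_succ]
    exact (le_max_left _ _).trans (Nat.le_add_right _ _)

theorem T_mono_right (W : ℕ → ℕ → ℕ) (m n : ℕ) :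
    Pool.Agent.W533.LP.T W m n ≤ Pool.Agent.W533.LP.T W m (n + 1) := by
  cases m with
  | zero => rw [T_zero_left, T_zero_left]
  | succ m =>
    rw [T_succ]
    exact (le_max_right _ _).trans (Nat.le_add_right _ _)

theorem T_mono (W : ℕ → ℕ → ℕ) {m m' n n' : ℕ} (hm : m ≤ m') (hn : n ≤ n') :
    Pool.Agent.W533.LP.T W m n ≤ Pool.Agent.W533.LP.T W m' n' := by
  have h1 : Monotone fun m => Pool.Agent.W533.LP.T W m n :=
    monotone_nat_of_le_succ fun m => T_mono_left W m n
  have h2 : Monotone fun n => Pool.Agent.W533.LP.T W m' n :=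
    monotone_nat_of_le_succ fun n => T_mono_right W m' n
  exact (h1 hm).trans (h2 hn)

theorem T_diag (W : ℕ → ℕ → ℕ) (m n : ℕ) : Pool.Agent.W533.LP.T W m n + W m n ≤
    Pool.Agent.W533.LP.T W (m + 1) (n + 1) := by
  rw [T_succ]
  exact Nat.add_le_add_right ((T_mono_right W m n).trans (le_max_left _ _)) _

/-- a strict chain of sites of positive weight -/
theorem chain_le_T (W : ℕ → ℕ → ℕ) (l : List (ℕ × ℕ)) : ∀ m n,
    (∀ v ∈ l, v.1 < m ∧ v.2 < n ∧ 1 ≤ W v.1 v.2) →
    (l.Pairwise fun a b => a.1 < b.1 ∧ a.2 < b.2) →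
    l.length ≤ Pool.Agent.W533.LP.T W m n := by
  induction l using List.reverseRecOn with
  | nil => intro m n _ _; simp
  | append_singleton l b ih =>
    intro m n h1 h2
    rw [List.pairwise_append] at h2
    have hb := h1 b (by simp)
    have h3 := ih b.1 b.2 (fun v hv => by
      have h4 := h2.2.2 v hv b (by simp)
      exact ⟨h4.1, h4.2, (h1 v (by simp [hv])).2.2⟩) h2.1
    have h5 := T_diag W b.1 b.2
    have h6 := T_mono W (m := b.1 + 1) (m' := m) (n := b.2 + 1) (n' := n) hb.1 hb.2.1
    rw [List.length_append, List.length_singleton]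
    omega

/-- an optimal chain with multiplicities -/
theorem opt_list (W : ℕ → ℕ → ℕ) (m : ℕ) : ∀ n, ∃ l : List (ℕ × ℕ),
    l.length = Pool.Agent.W533.LP.T W m n ∧ (∀ v ∈ l, v.1 < m ∧ v.2 < n) ∧
    (l.Pairwise fun a b => a.1 ≤ b.1 ∧ a.2 ≤ b.2) ∧ ∀ v, l.count v ≤ W v.1 v.2 := by
  induction m with
  | zero => intro n; exact ⟨[], by simp [T_zero_left], by simp, by simp, by simp⟩
  | succ m ihm =>
    intro n
    induction n with
    | zero => exact ⟨[], by simp [T_zero_right], by simp, by simp, by simp⟩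
    | succ n ihn =>
      have key : ∀ l : List (ℕ × ℕ), (∀ v ∈ l, v.1 < m + 1 ∧ v.2 < n + 1 ∧ v ≠ (m, n)) →
          (l.Pairwise fun a b => a.1 ≤ b.1 ∧ a.2 ≤ b.2) → (∀ v, l.count v ≤ W v.1 v.2) →
          ∃ l' : List (ℕ × ℕ), l'.length = l.length + W m n ∧
            (∀ v ∈ l', v.1 < m + 1 ∧ v.2 < n + 1) ∧
            (l'.Pairwise fun a b => a.1 ≤ b.1 ∧ a.2 ≤ b.2) ∧ ∀ v, l'.count v ≤ W v.1 v.2 := by
        intro l h1 h2 h3
        refine ⟨l ++ List.replicate (W m n) (m, n), by simp, ?_, ?_, ?_⟩
        · intro v hv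
          rcases List.mem_append.1 hv with hv | hv
          · exact ⟨(h1 v hv).1, (h1 v hv).2.1⟩
          · rw [List.mem_replicate] at hv
            rw [hv.2]
            simp
        · rw [List.pairwise_append]
          refine ⟨h2, ?_, ?_⟩
          · rw [List.pairwise_replicate]
            exact Or.inr ⟨le_rfl, le_rfl⟩
          · intro a ha b hb
            rw [List.mem_replicate] at hb
            have := h1 a ha
            rw [hb.2]
            exact ⟨by omega, by omega⟩
        · intro v
          rw [List.count_append, List.count_replicate]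
          by_cases hv : v = (m, n)
          · subst hv
            have h4 : l.count (m, n) = 0 := by
              rw [List.count_eq_zero]
              intro h5
              exact (h1 _ h5).2.2 rfl
            simp [h4]
          · have h5 : ((m, n) == v) = false := by
              rw [beq_eq_false_iff_ne]
              exact Ne.symm hv
            rw [h5]
            simpa using h3 v
      rw [T_succ]
      rcases le_total (Pool.Agent.W533.LP.T W m (n + 1)) (Pool.Agent.W533.LP.T W (m + 1) n) with
        hle | hle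
      · obtain ⟨l, h1, h2, h3, h4⟩ := ihn
        obtain ⟨l', h5, h6, h7, h8⟩ := key l (fun v hv => by
          have := h2 v hv
          refine ⟨this.1, by omega, ?_⟩
          rintro rfl
          have h9 : n < n := this.2
          omega) h3 h4
        refine ⟨l', ?_, h6, h7, h8⟩
        rw [h5, h1, max_eq_right hle]
      · obtain ⟨l, h1, h2, h3, h4⟩ := ihm (n + 1)
        obtain ⟨l', h5, h6, h7, h8⟩ := key l (fun v hv => by
          have := h2 v hv
          refine ⟨by omega, this.2, ?_⟩
          rintro rfl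
          have h9 : m < m := this.1
          omega) h3 h4
        refine ⟨l', ?_, h6, h7, h8⟩
        rw [h5, h1, max_eq_left hle]

end Q292.OPF
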