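import Mathlib

/-!
# Maximal flow in oriented bond percolation: definitions
-/

namespace Q292.OPF

open MeasureTheory ProbabilityTheory

/-- `((x, y), b)` is the edge from `(x, y)` to `(x + 1, y)` if `b = false` and to `(x, y + 1)` if
`b = true`. -/
abbrev Edge := (ℕ × ℕ) × Bool

/-- the starting point of an edge -/
def tail (e : Edge) : ℕ × ℕ := e.1

/-- the end point of an edge -/
def head (e : Edge) : ℕ × ℕ := if e.2 = true then (e.1.1, e.1.2 + 1) else (e.1.1 + 1, e.1.2)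

/-- the vertices `{0, …, n - 1}²` -/
def box (n : ℕ) : Set (ℕ × ℕ) := {v | v.1 < n ∧ v.2 < n}

/-- `S = {(0,0), (0,1), …, (0,n-2)} ∪ {(1,0), …, (n-2,0)}` -/
def S (n : ℕ) : Set (ℕ × ℕ) := {v | (v.1 = 0 ∧ v.2 + 2 ≤ n) ∨ (v.2 = 0 ∧ 1 ≤ v.1 ∧ v.1 + 2 ≤ n)}

/-- `T = {(0,n-1), …, (n-1,n-1)} ∪ {(n-1,n-2), …, (n-1,0)}` -/
def T (n : ℕ) : Set (ℕ × ℕ) := {v | (v.2 + 1 = n ∧ v.1 + 1 ≤ n) ∨ (v.1 + 1 = n ∧ v.2 + 2 ≤ n)}

/-- `l` is the list of the edges of an oriented path from `S` to `T` in the box which uses only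
open edges (`ω e = true` means that `e` is open). -/
def IsPath (n : ℕ) (ω : Edge → Bool) (l : List Edge) : Prop :=
  l.IsChain (fun e e' => head e = tail e') ∧
  (∀ e ∈ l, tail e ∈ box n ∧ head e ∈ box n ∧ ω e = true) ∧
  (∃ e ∈ l.head?, tail e ∈ S n) ∧ ∃ e ∈ l.getLast?, head e ∈ T n

/-- the largest number of pairwise edge-disjoint open paths from `S` to `T` -/
noncomputable def V (n : ℕ) (ω : Edge → Bool) : ℕ :=
  sSup {k : ℕ | ∃ P : Fin k → List Edge, (∀ i, IsPath n ω (P i)) ∧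
    ∀ i j, i ≠ j → List.Disjoint (P i) (P j)}

/-- Bernoulli percolation: the edges are independently open with probability `p` -/
noncomputable def perc (p : unitInterval) : Measure (Edge → Bool) :=
  Measure.infinitePi fun _ => bernoulliMeasure true false p

end Q292.OPF
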