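import Mathlib
import Pool.Agent.Q292.OPF.Defs

/-!
# Max-flow min-cut (via Hall's theorem, after the Menger files of the library)
-/

namespace Q292.OPF

open Finset

/-- the edges of the box -/
noncomputable def boxE (n : ℕ) : Finset Edge := by
  classical
  exact ((range n ×ˢ range n) ×ˢ univ).filter fun e => tail e ∈ box n ∧ head e ∈ box n

theorem mem_boxE {n : ℕ} {e : Edge} : e ∈ boxE n ↔ tail e ∈ box n ∧ head e ∈ box n := by
  classical
  unfold boxE
  simp only [mem_filter, mem_product, mem_range, mem_univ, and_true]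
  constructor
  · rintro ⟨-, h⟩
    exact h
  · intro h
    exact ⟨h.1, h⟩

/-- open edges leaving `W` -/
noncomputable def openfwd (n : ℕ) (ω : Edge → Bool) (W : Finset (ℕ × ℕ)) : ℕ :=
  #{e ∈ boxE n | ω e = true ∧ tail e ∈ W ∧ head e ∉ W}

/-- admissible cuts -/
def IsCut (n : ℕ) (W : Finset (ℕ × ℕ)) : Prop := (∀ v ∈ S n, v ∈ W) ∧ ∀ v ∈ T n, v ∉ W

theorem S_not_T {n : ℕ} {v : ℕ × ℕ} (h : v ∈ S n) : v ∉ T n := by
  intro h2
  have h1 : (v.1 = 0 ∧ v.2 + 2 ≤ n) ∨ (v.2 = 0 ∧ 1 ≤ v.1 ∧ v.1 + 2 ≤ n) := h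
  have h3 : (v.2 + 1 = n ∧ v.1 + 1 ≤ n) ∨ (v.1 + 1 = n ∧ v.2 + 2 ≤ n) := h2
  omega

/-- a path crosses every cut -/
theorem crosses {W : Finset (ℕ × ℕ)} (l : List Edge)
    (hc : l.IsChain (fun e e' => head e = tail e'))
    (hs : ∃ e ∈ l.head?, tail e ∈ W) (ht : ∃ e ∈ l.getLast?, head e ∉ W) :
    ∃ e ∈ l, tail e ∈ W ∧ head e ∉ W := by
  induction l with
  | nil => simp at hs
  | cons a l ih =>
    obtain ⟨e, he, hes⟩ := hs
    simp only [List.head?_cons, Option.mem_def, Option.some.injEq] at he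
    subst he
    by_cases hh : head a ∈ W
    · cases l with
      | nil =>
        obtain ⟨e, he, het⟩ := ht
        simp only [List.getLast?_singleton, Option.mem_def, Option.some.injEq] at he
        subst he
        exact absurd hh het
      | cons b l =>
        rw [List.isChain_cons_cons] at hc
        obtain ⟨e, he, h1, h2⟩ := ih hc.2 ⟨b, by simp, by rw [← hc.1]; exact hh⟩ (by
          obtain ⟨e, he, het⟩ := ht
          rw [List.getLast?_cons_cons] at he
          exact ⟨e, he, het⟩)
        exact ⟨e, List.mem_cons_of_mem _ he, h1, h2⟩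
    · exact ⟨a, List.mem_cons_self, hes, hh⟩

theorem card_le_openfwd {n : ℕ} {ω : Edge → Bool} {W : Finset (ℕ × ℕ)} (hW : IsCut n W) {k : ℕ}
    (P : Fin k → List Edge) (hP : ∀ i, IsPath n ω (P i))
    (hd : ∀ i j, i ≠ j → List.Disjoint (P i) (P j)) : k ≤ openfwd n ω W := by
  classical
  have h1 : ∀ i, ∃ e ∈ P i, tail e ∈ W ∧ head e ∉ W := by
    intro i
    obtain ⟨hc, -, ⟨e, he, hes⟩, ⟨e', he', het⟩⟩ := hP i
    exact crosses (P i) hc ⟨e, he, hW.1 _ hes⟩ ⟨e', he', hW.2 _ het⟩
  choose e he het heh using h1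
  have hinj : Function.Injective e := by
    intro i j hij
    by_contra hne
    exact hd i j hne (he i) (hij ▸ he j)
  calc k = #(univ.image e) := by
        rw [card_image_of_injective _ hinj, card_univ, Fintype.card_fin]
    _ ≤ openfwd n ω W := by
        unfold openfwd
        refine card_le_card ?_
        intro a ha
        rw [mem_image] at ha
        obtain ⟨i, -, rfl⟩ := ha
        rw [mem_filter, mem_boxE]
        have h2 := (hP i).2.1 (e i) (he i)
        exact ⟨⟨h2.1, h2.2.1⟩, h2.2.2, het i, heh i⟩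

theorem trivial_cut (n : ℕ) : ∃ W, IsCut n W := by
  classical
  refine ⟨((range n ×ˢ range n)).filter fun v => v ∈ S n, fun v hv => ?_, fun v hv h => ?_⟩
  · rw [mem_filter, mem_product, mem_range, mem_range]
    refine ⟨?_, hv⟩
    have h1 : (v.1 = 0 ∧ v.2 + 2 ≤ n) ∨ (v.2 = 0 ∧ 1 ≤ v.1 ∧ v.1 + 2 ≤ n) := hv
    omega
  · rw [mem_filter] at h
    exact S_not_T h.2 hv

theorem V_bdd (n : ℕ) (ω : Edge → Bool) : BddAbove {k : ℕ | ∃ P : Fin k → List Edge,
    (∀ i, IsPath n ω (P i)) ∧ ∀ i j, i ≠ j → List.Disjoint (P i) (P j)} := by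
  obtain ⟨W, hW⟩ := trivial_cut n
  refine ⟨openfwd n ω W, ?_⟩
  rintro k ⟨P, hP, hd⟩
  exact card_le_openfwd hW P hP hd

theorem V_le {n : ℕ} {ω : Edge → Bool} {W : Finset (ℕ × ℕ)} (hW : IsCut n W) :
    V n ω ≤ openfwd n ω W := by
  unfold V
  refine csSup_le ⟨0, fun i => i.elim0, fun i => i.elim0, fun i => i.elim0⟩ ?_
  rintro k ⟨P, hP, hd⟩
  exact card_le_openfwd hW P hP hd

theorem le_V {n k : ℕ} {ω : Edge → Bool} (P : Fin k → List Edge) (hP : ∀ i, IsPath n ω (P i))
    (hd : ∀ i j, i ≠ j → List.Disjoint (P i) (P j)) : k ≤ V n ω :=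
  le_csSup (V_bdd n ω) ⟨P, hP, hd⟩

/-- the type of open edges of the box -/
abbrev OE (n : ℕ) (ω : Edge → Bool) := {e : Edge // e ∈ boxE n ∧ ω e = true}

noncomputable instance (n : ℕ) (ω : Edge → Bool) : Fintype (OE n ω) := by
  classical
  exact Fintype.subtype ((boxE n).filter fun e => ω e = true) fun e => by
    rw [mem_filter]

theorem orbit_aux (n : ℕ) (ω : Edge → Bool) (k : ℕ)
    (τ : Equiv.Perm (OE n ω ⊕ Fin k))
    (h1 : ∀ i : Fin k, ∃ e : OE n ω, τ (Sum.inr i) = Sum.inl e ∧ tail e.1 ∈ S n)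
    (h2 : ∀ e e' : OE n ω, τ (Sum.inl e) = Sum.inl e' → e' = e ∨ tail e'.1 = head e.1)
    (h3 : ∀ (e : OE n ω) (j : Fin k), τ (Sum.inl e) = Sum.inr j → head e.1 ∈ T n)
    (i : Fin k) :
    ∃ w : List Edge, IsPath n ω w ∧ ∀ e ∈ w, ∃ (he : e ∈ boxE n ∧ ω e = true) (m : ℕ),
      (τ ^ m) (Sum.inr i) = Sum.inl ⟨e, he⟩ ∧
        ∀ l, 1 ≤ l → l ≤ m → ∃ e', (τ ^ l) (Sum.inr i) = Sum.inl e' := by
  classical
  set x : ℕ → (OE n ω ⊕ Fin k) := fun m => (τ ^ m) (Sum.inr i) with hx
  have hx0 : x 0 = Sum.inr i := by simp [hx]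
  have hxs : ∀ m, x (m + 1) = τ (x m) := by
    intro m
    simp only [hx]
    rw [pow_succ', Equiv.Perm.mul_apply]
  have hex : ∃ m, 1 ≤ m ∧ ∃ j, x m = Sum.inr j := by
    refine ⟨orderOf τ, orderOf_pos τ, i, ?_⟩
    simp [hx, pow_orderOf_eq_one]
  obtain ⟨M, ⟨hM1, jM, hjM⟩, hmin⟩ : ∃ M, (1 ≤ M ∧ ∃ j, x M = Sum.inr j) ∧
      ∀ m < M, ¬ (1 ≤ m ∧ ∃ j, x m = Sum.inr j) :=
    ⟨Nat.find hex, Nat.find_spec hex, fun m hm => Nat.find_min hex hm⟩
  have hinl : ∀ m, 1 ≤ m → m < M → ∃ e, x m = Sum.inl e := by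
    intro m hm hmM
    rcases hxm : x m with e | j
    · exact ⟨e, rfl⟩
    · exact absurd ⟨hm, j, hxm⟩ (hmin m hmM)
  have hM2 : 2 ≤ M := by
    by_contra hlt
    have : M = 1 := by omega
    obtain ⟨e, he, _⟩ := h1 i
    rw [this] at hjM
    rw [show (1 : ℕ) = 0 + 1 from rfl, hxs, hx0, he] at hjM
    cases hjM
  have hreach : ∀ m, m + 1 < M → ∀ e, x (m + 1) = Sum.inl e → ∃ w : List Edge,
      w.IsChain (fun e e' => head e = tail e') ∧ (∃ a ∈ w.head?, tail a ∈ S n) ∧
      e.1 ∈ w.getLast? ∧ ∀ e ∈ w, ∃ (he : e ∈ boxE n ∧ ω e = true) (m : ℕ), 1 ≤ m ∧ m < M ∧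
        x m = Sum.inl ⟨e, he⟩ := by
    intro m
    induction m with
    | zero =>
      intro hm e he
      obtain ⟨e1, he1, hu⟩ := h1 i
      have he' := he
      rw [hxs, hx0, he1] at he
      have hee : e1 = e := Sum.inl_injective he
      subst hee
      refine ⟨[e1.1], by simp, ⟨e1.1, by simp, hu⟩, by simp, ?_⟩
      intro e' he''
      rw [List.mem_singleton] at he''
      subst he''
      exact ⟨e1.2, 1, le_rfl, hm, he'⟩
    | succ m ih =>
      intro hm e he
      obtain ⟨e0, he0⟩ := hinl (m + 1) (by omega) (by omega)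
      obtain ⟨w, hw, hws, hwl, hwm⟩ := ih (by omega) e0 he0
      rcases h2 e0 e (by rw [← he0, ← hxs, he]) with hee | hee
      · subst hee
        exact ⟨w, hw, hws, hwl, hwm⟩
      · refine ⟨w ++ [e.1], ?_, ?_, by simp, ?_⟩
        · rw [List.isChain_append]
          refine ⟨hw, by simp, ?_⟩
          intro a ha b hb
          have h4 : a = e0.1 := by
            rw [Option.mem_def] at ha hwl
            rw [hwl] at ha
            exact (Option.some.inj ha).symm
          simp only [List.head?_cons, Option.mem_def, Option.some.injEq] at hb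
          rw [h4, ← hb]
          exact hee.symm
        · obtain ⟨a, ha, has⟩ := hws
          refine ⟨a, ?_, has⟩
          rw [Option.mem_def] at ha ⊢
          rw [List.head?_append, ha]
          rfl
        · intro e' he'
          rw [List.mem_append, List.mem_singleton] at he'
          rcases he' with he' | he'
          · exact hwm e' he'
          · subst he'
            exact ⟨e.2, m + 1 + 1, by omega, hm, he⟩
  obtain ⟨e, he⟩ := hinl (M - 1) (by omega) (by omega)
  have hM' : M - 1 = (M - 2) + 1 := by omega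
  have hv : head e.1 ∈ T n := by
    apply h3 e jM
    rw [← he, ← hxs, show M - 1 + 1 = M by omega, hjM]
  obtain ⟨w, hw, hws, hwl, hwm⟩ := hreach (M - 2) (by omega) e (by rw [← hM', he])
  refine ⟨w, ⟨hw, ?_, hws, e.1, hwl, hv⟩, ?_⟩
  · intro a ha
    obtain ⟨ha', -⟩ := hwm a ha
    rw [mem_boxE] at ha'
    exact ⟨ha'.1.1, ha'.1.2, ha'.2⟩
  · intro e he
    obtain ⟨he', m, hm1, hmM, hxm⟩ := hwm e he
    exact ⟨he', m, hxm, fun l hl hln => hinl l hl (by omega)⟩

/-- **Max-flow min-cut**, the difficult direction. -/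
theorem le_V_of_cuts {n k : ℕ} {ω : Edge → Bool}
    (h : ∀ W : Finset (ℕ × ℕ), IsCut n W → k ≤ openfwd n ω W) : k ≤ V n ω := by
  classical
  let X := OE n ω ⊕ Fin k
  let f0 : X → Finset X := fun x => Finset.univ.filter fun y =>
    match x, y with
    | Sum.inl e, Sum.inl e' => e' = e ∨ tail e'.1 = head e.1
    | Sum.inl e, Sum.inr _ => head e.1 ∈ T n
    | Sum.inr _, Sum.inl e' => tail e'.1 ∈ S n
    | Sum.inr _, Sum.inr _ => False
  have hall : ∀ A : Finset X, A.card ≤ (A.biUnion f0).card := by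
    intro A
    have hA : A.card = A.toLeft.card + A.toRight.card :=
      (Finset.card_toLeft_add_card_toRight).symm
    have hB : (A.biUnion f0).card = (A.biUnion f0).toLeft.card + (A.biUnion f0).toRight.card :=
      (Finset.card_toLeft_add_card_toRight).symm
    have hAB : A.toLeft ⊆ (A.biUnion f0).toLeft := by
      intro e he
      rw [Finset.mem_toLeft] at he ⊢
      refine Finset.mem_biUnion.2 ⟨_, he, ?_⟩
      rw [Finset.mem_filter]
      exact ⟨Finset.mem_univ _, Or.inl rfl⟩
    have hAm : A.toRight.card ≤ k := by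
      have := Finset.card_le_univ A.toRight
      simpa using this
    by_cases hA2 : A.toRight = ∅
    · have := Finset.card_le_card hAB
      rw [hA2, Finset.card_empty] at hA
      omega
    · obtain ⟨i0, hi0⟩ := Finset.nonempty_iff_ne_empty.2 hA2
      rw [Finset.mem_toRight] at hi0
      by_cases hv : ∃ e ∈ A.toLeft, head e.1 ∈ T n
      · obtain ⟨e, he, hve⟩ := hv
        rw [Finset.mem_toLeft] at he
        have hB2 : (A.biUnion f0).toRight = Finset.univ := by
          ext j
          simp only [Finset.mem_toRight, Finset.mem_univ, iff_true]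
          refine Finset.mem_biUnion.2 ⟨_, he, ?_⟩
          simp only [f0, Finset.mem_filter, Finset.mem_univ, true_and]
          exact hve
        have := Finset.card_le_card hAB
        rw [hB2, Finset.card_univ, Fintype.card_fin] at hB
        omega
      · push Not at hv
        let W : Finset (ℕ × ℕ) := ((range n ×ˢ range n).filter fun v => v ∈ S n) ∪
          (A.toLeft.image fun e => head e.1)
        have hcutW : IsCut n W := by
          constructor
          · intro v hv'
            refine mem_union_left _ ?_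
            rw [mem_filter, mem_product, mem_range, mem_range]
            refine ⟨?_, hv'⟩
            have h1 : (v.1 = 0 ∧ v.2 + 2 ≤ n) ∨ (v.2 = 0 ∧ 1 ≤ v.1 ∧ v.1 + 2 ≤ n) := hv'
            omega
          · intro v hv' hvW
            rcases mem_union.1 hvW with h4 | h4
            · rw [mem_filter] at h4
              exact S_not_T h4.2 hv'
            · obtain ⟨e, he, rfl⟩ := mem_image.1 h4
              exact hv e he hv'
        have hcut := h W hcutW
        set C' : Finset (OE n ω) := Finset.univ.filter fun e => tail e.1 ∈ W ∧ head e.1 ∉ W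
          with hC'
        have hCc : openfwd n ω W = C'.card := by
          unfold openfwd
          rw [hC', ← Finset.card_map ⟨fun e : OE n ω => e.1, Subtype.val_injective⟩]
          congr 1
          ext e
          simp only [mem_filter, mem_map, mem_univ, true_and, Function.Embedding.coeFn_mk]
          constructor
          · rintro ⟨h4, h5, h6, h7⟩
            exact ⟨⟨e, h4, h5⟩, ⟨h6, h7⟩, rfl⟩
          · rintro ⟨⟨e', h4, h5⟩, ⟨h6, h7⟩, rfl⟩
            exact ⟨h4, h5, h6, h7⟩
        rw [hCc] at hcut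
        have hsub : A.toLeft ∪ C' ⊆ (A.biUnion f0).toLeft := by
          apply Finset.union_subset hAB
          intro e he
          rw [hC', Finset.mem_filter] at he
          obtain ⟨_, hxS, _⟩ := he
          rw [Finset.mem_toLeft]
          rcases Finset.mem_union.1 hxS with hxs | hxS
          · refine Finset.mem_biUnion.2 ⟨_, hi0, ?_⟩
            simp only [f0, Finset.mem_filter, Finset.mem_univ, true_and]
            rw [mem_filter] at hxs
            exact hxs.2
          · obtain ⟨e0, he0, hx0⟩ := Finset.mem_image.1 hxS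
            rw [Finset.mem_toLeft] at he0
            refine Finset.mem_biUnion.2 ⟨_, he0, ?_⟩
            simp only [f0, Finset.mem_filter, Finset.mem_univ, true_and]
            exact Or.inr hx0.symm
        have hdisj : Disjoint A.toLeft C' := by
          rw [Finset.disjoint_left]
          intro e he he'
          rw [hC', Finset.mem_filter] at he'
          apply he'.2.2
          exact mem_union_right _ (Finset.mem_image.2 ⟨e, he, rfl⟩)
        have := Finset.card_le_card hsub
        rw [Finset.card_union_of_disjoint hdisj] at this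
        omega
  obtain ⟨f, hf, hft⟩ := (Finset.all_card_le_biUnion_card_iff_exists_injective f0).1 hall
  have hbij : Function.Bijective f := Finite.injective_iff_bijective.1 hf
  let τ : Equiv.Perm X := Equiv.ofBijective f hbij
  have hτ : ∀ x, τ x = f x := fun _ => rfl
  have h1 : ∀ i : Fin k, ∃ e : OE n ω, τ (Sum.inr i) = Sum.inl e ∧ tail e.1 ∈ S n := by
    intro i
    have := hft (Sum.inr i)
    rw [← hτ] at this
    rcases hy : τ (Sum.inr i) with e | j
    · rw [hy] at this
      simp only [f0, Finset.mem_filter, Finset.mem_univ, true_and] at this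
      exact ⟨e, rfl, this⟩
    · rw [hy] at this
      simp [f0] at this
  have h2 : ∀ e e' : OE n ω, τ (Sum.inl e) = Sum.inl e' →
      e' = e ∨ tail e'.1 = head e.1 := by
    intro e e' hy
    have := hft (Sum.inl e)
    rw [← hτ, hy] at this
    simpa only [f0, Finset.mem_filter, Finset.mem_univ, true_and] using this
  have h3 : ∀ (e : OE n ω) (j : Fin k), τ (Sum.inl e) = Sum.inr j → head e.1 ∈ T n := by
    intro e j hy
    have := hft (Sum.inl e)
    rw [← hτ, hy] at this
    simpa only [f0, Finset.mem_filter, Finset.mem_univ, true_and] using this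
  choose p hp hpe using orbit_aux n ω k τ h1 h2 h3
  refine le_V p hp ?_
  intro i j hij
  rw [List.disjoint_left]
  intro e hei hej
  obtain ⟨he, m, hm, hml⟩ := hpe i e hei
  obtain ⟨_, m', hm', hml'⟩ := hpe j e hej
  have key : ∀ (i j : Fin k) (m m' : ℕ), i ≠ j → m ≤ m' →
      (τ ^ m) (Sum.inr i) = (τ ^ m') (Sum.inr j) →
      (∀ l, 1 ≤ l → l ≤ m' → ∃ e', (τ ^ l) (Sum.inr j) = Sum.inl e') → False := by
    intro i j m m' hij hmm heq hl
    have h5 : (Sum.inr i : X) = (τ ^ (m' - m)) (Sum.inr j) := by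
      apply (τ ^ m).injective
      rw [heq, ← Equiv.Perm.mul_apply, ← pow_add, show m + (m' - m) = m' by omega]
    rcases Nat.eq_zero_or_pos (m' - m) with h0 | h0
    · rw [h0, pow_zero, Equiv.Perm.one_apply] at h5
      exact hij (Sum.inr_injective h5)
    · obtain ⟨e', he'⟩ := hl (m' - m) h0 (by omega)
      rw [he'] at h5
      cases h5
  rcases le_total m m' with hmm | hmm
  · exact key i j m m' hij hmm (hm.trans hm'.symm) hml'
  · exact key j i m' m (Ne.symm hij) hmm (hm'.trans hm.symm) hml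

end Q292.OPF
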