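import Mathlib
import Pool.Agent.Q292.OPF.Hall

/-!
# The interface of a cut as a dual path

The face `(a, b)` is the unit square with upper right corner `(a, b)`.
-/

namespace Q292.OPF

open Finset

/-- boundary edge of `W` -/
def bd (W : Finset (ℕ × ℕ)) (e : Edge) : Prop := (tail e ∈ W ∧ head e ∉ W) ∨ (tail e ∉ W ∧ head e ∈ W)

/-- the face on the left of the oriented dual edge: starting face -/
def src (W : Finset (ℕ × ℕ)) (e : Edge) : ℕ × ℕ :=
  if e.2 = true then (if tail e ∈ W then (e.1.1, e.1.2 + 1) else (e.1.1 + 1, e.1.2 + 1))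
  else (if tail e ∈ W then (e.1.1 + 1, e.1.2 + 1) else (e.1.1 + 1, e.1.2))

/-- final face -/
def dst (W : Finset (ℕ × ℕ)) (e : Edge) : ℕ × ℕ :=
  if e.2 = true then (if tail e ∈ W then (e.1.1 + 1, e.1.2 + 1) else (e.1.1, e.1.2 + 1))
  else (if tail e ∈ W then (e.1.1 + 1, e.1.2) else (e.1.1 + 1, e.1.2 + 1))

/-- the next edge of the interface: turn right if possible, else go straight, else turn left -/
def nxt (W : Finset (ℕ × ℕ)) (e : Edge) : Edge :=
  if e.2 = true then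
    if tail e ∈ W then
      if (e.1.1 + 1, e.1.2) ∉ W then ((e.1.1, e.1.2), false)
      else if (e.1.1 + 1, e.1.2 + 1) ∉ W then ((e.1.1 + 1, e.1.2), true)
      else ((e.1.1, e.1.2 + 1), false)
    else
      if (e.1.1 - 1, e.1.2 + 1) ∉ W then ((e.1.1 - 1, e.1.2 + 1), false)
      else if (e.1.1 - 1, e.1.2) ∉ W then ((e.1.1 - 1, e.1.2), true)
      else ((e.1.1 - 1, e.1.2), false)
  else
    if tail e ∈ W then
      if (e.1.1, e.1.2 - 1) ∉ W then ((e.1.1, e.1.2 - 1), true)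
      else if (e.1.1 + 1, e.1.2 - 1) ∉ W then ((e.1.1, e.1.2 - 1), false)
      else ((e.1.1 + 1, e.1.2 - 1), true)
    else
      if (e.1.1 + 1, e.1.2 + 1) ∉ W then ((e.1.1 + 1, e.1.2), true)
      else if (e.1.1, e.1.2 + 1) ∉ W then ((e.1.1, e.1.2 + 1), false)
      else ((e.1.1, e.1.2), true)

/-- good boundary edges: in the box, not the exit -/
def exitE (n : ℕ) : Edge := ((n - 2, 0), false)

/-- first edge of the interface -/
def entryE (n : ℕ) : Edge := ((0, n - 2), true)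

section
variable {n : ℕ} {W : Finset (ℕ × ℕ)}

theorem cut_left (hW : IsCut n W) {y : ℕ} (hy : y + 2 ≤ n) : ((0, y) : ℕ × ℕ) ∈ W :=
  hW.1 _ (Or.inl ⟨rfl, hy⟩)

theorem cut_bottom (hW : IsCut n W) {x : ℕ} (hx : x + 2 ≤ n) : ((x, 0) : ℕ × ℕ) ∈ W := by
  rcases Nat.eq_zero_or_pos x with h | h
  · subst h
    exact cut_left hW hx
  · exact hW.1 _ (Or.inr ⟨rfl, h, hx⟩)

theorem cut_top (hW : IsCut n W) {x y : ℕ} (hx : x + 1 ≤ n) (hy : y + 1 = n) :
    ((x, y) : ℕ × ℕ) ∉ W := hW.2 _ (Or.inl ⟨hy, hx⟩)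

theorem cut_right (hW : IsCut n W) {x y : ℕ} (hx : x + 1 = n) (hy : y + 1 ≤ n) :
    ((x, y) : ℕ × ℕ) ∉ W := by
  rcases Nat.lt_or_ge (y + 1) n with h | h
  · exact hW.2 _ (Or.inr ⟨hx, by omega⟩)
  · exact hW.2 _ (Or.inl ⟨by omega, by omega⟩)

theorem cases_edge (hW : IsCut n W) {x y : ℕ} {b : Bool} (hbd : bd W ((x, y), b))
    (hbox : ((x, y), b) ∈ boxE n) (hne : ((x, y), b) ≠ exitE n) :
    (b = true ∧ (x, y) ∈ W ∧ (x, y + 1) ∉ W ∧ x + 2 ≤ n ∧ y + 2 ≤ n) ∨
    (b = true ∧ (x, y) ∉ W ∧ (x, y + 1) ∈ W ∧ 1 ≤ x ∧ x + 2 ≤ n ∧ y + 3 ≤ n) ∨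
    (b = false ∧ (x, y) ∈ W ∧ (x + 1, y) ∉ W ∧ x + 2 ≤ n ∧ 1 ≤ y ∧ y + 2 ≤ n) ∨
    (b = false ∧ (x, y) ∉ W ∧ (x + 1, y) ∈ W ∧ x + 3 ≤ n ∧ y + 2 ≤ n) := by
  rw [mem_boxE] at hbox
  have hb1 : x < n ∧ y < n := hbox.1
  have hb2 := hbox.2
  cases b with
  | true =>
    have hb3 : x < n ∧ y + 1 < n := hb2
    have h1 : ((x, y) ∈ W ∧ (x, y + 1) ∉ W) ∨ ((x, y) ∉ W ∧ (x, y + 1) ∈ W) := hbd
    rcases h1 with ⟨h1, h2⟩ | ⟨h1, h2⟩
    · left
      refine ⟨rfl, h1, h2, ?_, by omega⟩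
      by_contra hcon
      exact cut_right hW (show x + 1 = n by omega) (show y + 1 ≤ n by omega) h1
    · right
      left
      have hx : x + 2 ≤ n := by
        by_contra hcon
        exact cut_right hW (show x + 1 = n by omega) (show y + 1 + 1 ≤ n by omega) h2
      have hy : y + 3 ≤ n := by
        by_contra hcon
        exact cut_top hW (show x + 1 ≤ n by omega) (show y + 1 + 1 = n by omega) h2
      refine ⟨rfl, h1, h2, ?_, hx, hy⟩
      by_contra hcon
      have hx0 : x = 0 := by omega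
      subst hx0
      exact h1 (cut_left hW (by omega))
  | false =>
    have hb3 : x + 1 < n ∧ y < n := hb2
    have h1 : ((x, y) ∈ W ∧ (x + 1, y) ∉ W) ∨ ((x, y) ∉ W ∧ (x + 1, y) ∈ W) := hbd
    rcases h1 with ⟨h1, h2⟩ | ⟨h1, h2⟩
    · right
      right
      left
      have hy : y + 2 ≤ n := by
        by_contra hcon
        exact cut_top hW (show x + 1 ≤ n by omega) (show y + 1 = n by omega) h1
      refine ⟨rfl, h1, h2, by omega, ?_, hy⟩
      by_contra hcon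
      have hy0 : y = 0 := by omega
      subst hy0
      have hx3 : ¬ (x + 1 + 2 ≤ n) := fun hcon => h2 (cut_bottom hW hcon)
      apply hne
      unfold exitE
      have : x = n - 2 := by omega
      rw [this]
    · right
      right
      right
      have hx : x + 3 ≤ n := by
        by_contra hcon
        exact cut_right hW (show x + 1 + 1 = n by omega) (show y + 1 ≤ n by omega) h2
      have hy : y + 2 ≤ n := by
        by_contra hcon
        exact cut_top hW (show x + 1 + 1 ≤ n by omega) (show y + 1 = n by omega) h2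
      exact ⟨rfl, h1, h2, hx, hy⟩

/-- the next edge is a boundary edge, starts where the previous one ends -/
theorem nxt_spec (hW : IsCut n W) {e : Edge} (hbd : bd W e) (hbox : e ∈ boxE n)
    (hne : e ≠ exitE n) :
    bd W (nxt W e) ∧ nxt W e ∈ boxE n ∧ src W (nxt W e) = dst W e ∧ 1 ≤ (dst W e).1 := by
  obtain ⟨⟨x, y⟩, b⟩ := e
  have hc := cases_edge hW hbd hbox hne
  rcases hc with ⟨rfl, h1, h2, hx, hy⟩ | ⟨rfl, h1, h2, hx1, hx, hy⟩ | ⟨rfl, h1, h2, hx, hy1, hy⟩ |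
    ⟨rfl, h1, h2, hx, hy⟩
  · by_cases h3 : (x + 1, y) ∈ W
    · by_cases h4 : (x + 1, y + 1) ∈ W
      · simp [nxt, bd, src, dst, tail, head, mem_boxE, box, h1, h2, h3, h4]
        omega
      · simp [nxt, bd, src, dst, tail, head, mem_boxE, box, h1, h3, h4]
        omega
    · simp [nxt, bd, src, dst, tail, head, mem_boxE, box, h1, h3]
      omega
  · obtain ⟨x, rfl⟩ : ∃ x', x = x' + 1 := ⟨x - 1, by omega⟩
    by_cases h3 : (x, y + 1) ∈ W
    · by_cases h4 : (x, y) ∈ W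
      · simp [nxt, bd, src, dst, tail, head, mem_boxE, box, h1, h3, h4]
        omega
      · simp [nxt, bd, src, dst, tail, head, mem_boxE, box, h1, h3, h4]
        omega
    · simp [nxt, bd, src, dst, tail, head, mem_boxE, box, h1, h2, h3]
      omega
  · obtain ⟨y, rfl⟩ : ∃ y', y = y' + 1 := ⟨y - 1, by omega⟩
    by_cases h3 : (x, y) ∈ W
    · by_cases h4 : (x + 1, y) ∈ W
      · simp [nxt, bd, src, dst, tail, head, mem_boxE, box, h1, h2, h3, h4]
        omega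
      · simp [nxt, bd, src, dst, tail, head, mem_boxE, box, h1, h3, h4]
        omega
    · simp [nxt, bd, src, dst, tail, head, mem_boxE, box, h1, h3]
      omega
  · by_cases h3 : (x + 1, y + 1) ∈ W
    · by_cases h4 : (x, y + 1) ∈ W
      · simp [nxt, bd, src, dst, tail, head, mem_boxE, box, h1, h3, h4]
        omega
      · simp [nxt, bd, src, dst, tail, head, mem_boxE, box, h1, h3, h4]
        omega
    · simp [nxt, bd, src, dst, tail, head, mem_boxE, box, h1, h2, h3]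
      omega

/-- injectivity -/
theorem nxt_inj (hW : IsCut n W) {e e' : Edge} (hbd : bd W e) (hbox : e ∈ boxE n)
    (hne : e ≠ exitE n) (hbd' : bd W e') (hbox' : e' ∈ boxE n) (hne' : e' ≠ exitE n)
    (h : nxt W e = nxt W e') : e = e' := by
  have hd : dst W e = dst W e' := by
    rw [← (nxt_spec hW hbd hbox hne).2.2.1, ← (nxt_spec hW hbd' hbox' hne').2.2.1, h]
  obtain ⟨⟨x, y⟩, b⟩ := e
  obtain ⟨⟨x', y'⟩, b'⟩ := e'
  have hc := cases_edge hW hbd hbox hne
  have hc' := cases_edge hW hbd' hbox' hne'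
  rcases hc with ⟨rfl, h1, h2, hx, hy⟩ | ⟨rfl, h1, h2, hx1, hx, hy⟩ | ⟨rfl, h1, h2, hx, hy1, hy⟩ |
    ⟨rfl, h1, h2, hx, hy⟩ <;>
  rcases hc' with ⟨rfl, h1', h2', hx', hy'⟩ | ⟨rfl, h1', h2', hx1', hx', hy'⟩ |
    ⟨rfl, h1', h2', hx', hy1', hy'⟩ | ⟨rfl, h1', h2', hx', hy'⟩ <;>
  simp [dst, tail, h1, h1'] at hd <;> obtain ⟨h5, h6⟩ := hd <;> subst h5 <;> subst h6 <;>
  first
  | rfl
  | (exfalso
     simp [nxt, tail, h1, h1'] at h
     (try split_ifs at h) <;> simp_all)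

end

end Q292.OPF
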