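import Mathlib
import Pool.Agent.Q292.OPF.Trail

/-!
# The skeleton of the interface
-/

namespace Q292.OPF

open Finset

variable {n : ℕ} {W : Finset (ℕ × ℕ)}

/-- iterates of `nxt` -/
def it (W : Finset (ℕ × ℕ)) (n k : ℕ) : Edge := (nxt W)^[k] (entryE n)

theorem it_succ (W : Finset (ℕ × ℕ)) (n k : ℕ) : it W n (k + 1) = nxt W (it W n k) := by
  unfold it
  rw [Function.iterate_succ_apply']

theorem entry_good (hn : 2 ≤ n) (hW : IsCut n W) : bd W (entryE n) ∧ entryE n ∈ boxE n ∧
    src W (entryE n) = (0, n - 1) ∧ dst W (entryE n) = (1, n - 1) := by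
  have h1 : ((0, n - 2) : ℕ × ℕ) ∈ W := cut_left hW (by omega)
  have h2 : ((0, n - 2 + 1) : ℕ × ℕ) ∉ W := cut_top hW (by omega) (by omega)
  have h3 : n - 2 + 1 = n - 1 := by omega
  refine ⟨Or.inl ⟨h1, h2⟩, ?_, ?_, ?_⟩
  · rw [mem_boxE]
    simp [entryE, tail, head, box]
    omega
  · simp [entryE, src, tail, h1, h3]
  · simp [entryE, dst, tail, h1, h3]

theorem it_good (hn : 2 ≤ n) (hW : IsCut n W) (k : ℕ) (h : ∀ i < k, it W n i ≠ exitE n) :
    bd W (it W n k) ∧ it W n k ∈ boxE n := by
  induction k with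
  | zero =>
    have := entry_good hn hW
    exact ⟨this.1, this.2.1⟩
  | succ k ih =>
    rw [it_succ]
    have h1 := ih fun i hi => h i (by omega)
    have := nxt_spec hW h1.1 h1.2 (h k (by omega))
    exact ⟨this.1, this.2.1⟩

theorem it_inj (hn : 2 ≤ n) (hW : IsCut n W) (i : ℕ) : ∀ j, i < j →
    (∀ l < j, it W n l ≠ exitE n) → it W n i ≠ it W n j := by
  induction i with
  | zero =>
    intro j hj h heq
    obtain ⟨j, rfl⟩ : ∃ j', j = j' + 1 := ⟨j - 1, by omega⟩
    have h1 := it_good hn hW j fun l hl => h l (by omega)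
    have h2 := nxt_spec hW h1.1 h1.2 (h j (by omega))
    rw [← it_succ, ← heq] at h2
    have h3 : it W n 0 = entryE n := rfl
    rw [h3, (entry_good hn hW).2.2.1] at h2
    have h4 := h2.2.2.2
    rw [← h2.2.2.1] at h4
    simp at h4
  | succ i ih =>
    intro j hj h heq
    obtain ⟨j, rfl⟩ : ∃ j', j = j' + 1 := ⟨j - 1, by omega⟩
    rw [it_succ, it_succ] at heq
    have h1 := it_good hn hW j fun l hl => h l (by omega)
    have h2 := it_good hn hW i fun l hl => h l (by omega)
    have h3 := nxt_inj hW h2.1 h2.2 (h i (by omega)) h1.1 h1.2 (h j (by omega)) heq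
    exact ih j (by omega) (fun l hl => h l (by omega)) h3

theorem exists_trail (hn : 2 ≤ n) (hW : IsCut n W) : ∃ m, it W n m = exitE n ∧
    (∀ k < m, it W n k ≠ exitE n) := by
  classical
  have hex : ∃ m, it W n m = exitE n := by
    by_contra hcon
    push Not at hcon
    have hinj : Function.Injective fun k : ℕ => (⟨it W n k, (it_good hn hW k
        fun i _ => hcon i).2⟩ : {e // e ∈ boxE n}) := by
      intro i j hij
      have h1 : it W n i = it W n j := Subtype.ext_iff.1 hij
      by_contra hne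
      rcases Nat.lt_or_gt_of_ne hne with h2 | h2
      · exact it_inj hn hW i j h2 (fun l _ => hcon l) h1
      · exact it_inj hn hW j i h2 (fun l _ => hcon l) h1.symm
    exact not_injective_infinite_finite _ hinj
  exact ⟨Nat.find hex, Nat.find_spec hex, fun k hk => Nat.find_min hex hk⟩

/-- chain of dual edges starting at the face `f` -/
def Chn (W : Finset (ℕ × ℕ)) : ℕ × ℕ → List Edge → Prop
  | _, [] => True
  | f, e :: L => src W e = f ∧ Chn W (dst W e) L

/-- final face -/
def fin (W : Finset (ℕ × ℕ)) : ℕ × ℕ → List Edge → ℕ × ℕ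
  | f, [] => f
  | _, e :: L => fin W (dst W e) L

/-- vertical edge, crossed forward -/
def isVf (W : Finset (ℕ × ℕ)) (e : Edge) : Bool := e.2 && decide (tail e ∈ W)
/-- vertical edge, crossed backward -/
def isVb (W : Finset (ℕ × ℕ)) (e : Edge) : Bool := e.2 && !decide (tail e ∈ W)
/-- horizontal edge, crossed forward -/
def isHf (W : Finset (ℕ × ℕ)) (e : Edge) : Bool := !e.2 && decide (tail e ∈ W)
/-- horizontal edge, crossed backward -/
def isHb (W : Finset (ℕ × ℕ)) (e : Edge) : Bool := !e.2 && !decide (tail e ∈ W)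
/-- closed edge, crossed forward -/
def cf (ω : Edge → Bool) (W : Finset (ℕ × ℕ)) (e : Edge) : Bool := !ω e && decide (tail e ∈ W)

/-- leftward moves -/
def nvx : ℕ → List Edge → ℕ
  | _, [] => 0
  | r, e :: l => (r - e.1.1) + nvx e.1.1 l

/-- upward moves -/
def nvy : ℕ → List Edge → ℕ
  | _, [] => 0
  | r, e :: l => (e.1.2 - r) + nvy e.1.2 l

theorem disp (L : List Edge) : ∀ f, Chn W f L →
    (fin W f L).1 + L.countP (isVb W) = f.1 + L.countP (isVf W) ∧
    (fin W f L).2 + L.countP (isHf W) = f.2 + L.countP (isHb W) := by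
  induction L with
  | nil => intro f _; simp [fin]
  | cons e L ih =>
    intro f h
    obtain ⟨h1, h2⟩ := h
    have h3 := ih _ h2
    subst h1
    obtain ⟨⟨x, y⟩, b⟩ := e
    simp only [fin, List.countP_cons]
    cases b <;> by_cases hw : (x, y) ∈ W <;>
      simp [isVb, isVf, isHf, isHb, src, dst, tail, hw] at h3 ⊢ <;> omega

theorem nvx_le (ω : Edge → Bool) (L : List Edge) : ∀ f r, Chn W f L →
    nvx r (L.filter (cf ω W)) ≤ (r + 1 - f.1) + L.countP (isVb W) := by
  induction L with
  | nil => intro f r _; simp [nvx]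
  | cons e L ih =>
    intro f r h
    obtain ⟨h1, h2⟩ := h
    subst h1
    obtain ⟨⟨x, y⟩, b⟩ := e
    have h3 := ih _ r h2
    have h4 := ih _ x h2
    simp only [List.filter_cons, List.countP_cons]
    cases b
    · by_cases hw : (x, y) ∈ W <;> cases ho : ω ((x, y), false) <;>
        simp [isVb, cf, src, dst, tail, hw, ho, nvx] at h3 h4 ⊢ <;> omega
    · by_cases hw : (x, y) ∈ W <;> cases ho : ω ((x, y), true) <;>
        simp [isVb, cf, src, dst, tail, hw, ho, nvx] at h3 h4 ⊢ <;> omega

theorem nvy_le (ω : Edge → Bool) (L : List Edge) : ∀ f r, Chn W f L →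
    nvy r (L.filter (cf ω W)) ≤ (f.2 - (r + 1)) + L.countP (isHb W) := by
  induction L with
  | nil => intro f r _; simp [nvy]
  | cons e L ih =>
    intro f r h
    obtain ⟨h1, h2⟩ := h
    subst h1
    obtain ⟨⟨x, y⟩, b⟩ := e
    have h3 := ih _ r h2
    have h4 := ih _ y h2
    simp only [List.filter_cons, List.countP_cons]
    cases b
    · by_cases hw : (x, y) ∈ W <;> cases ho : ω ((x, y), false) <;>
        simp [isHb, cf, src, dst, tail, hw, ho, nvy] at h3 h4 ⊢ <;> omega
    · by_cases hw : (x, y) ∈ W <;> cases ho : ω ((x, y), true) <;>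
        simp [isHb, cf, src, dst, tail, hw, ho, nvy] at h3 h4 ⊢ <;> omega

end Q292.OPF
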