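import Mathlib
import Pool.Agent.Q292.OPF.Trail2

/-!
# Every cut contains a long chain of closed edges
-/

namespace Q292.OPF

open Finset

variable {n : ℕ} {W : Finset (ℕ × ℕ)}

theorem chn_range (hn : 2 ≤ n) (hW : IsCut n W) {m : ℕ} (hm : ∀ k < m, it W n k ≠ exitE n)
    (len : ℕ) : ∀ i, i + len ≤ m + 1 →
      Chn W (src W (it W n i)) ((List.range' i len).map (it W n)) := by
  induction len with
  | zero => intro i _; simp [Chn]
  | succ len ih =>
    intro i hi
    rw [List.range'_succ, List.map_cons]
    refine ⟨rfl, ?_⟩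
    cases len with
    | zero => simp [Chn]
    | succ len =>
      have h1 := ih (i + 1) (by omega)
      have h2 := it_good hn hW i fun l hl => hm l (by omega)
      have h3 := (nxt_spec hW h2.1 h2.2 (hm i (by omega))).2.2.1
      rw [it_succ, h3] at h1
      exact h1

theorem fin_range (f : ℕ × ℕ) (len : ℕ) : ∀ i,
    fin W f ((List.range' i (len + 1)).map (it W n)) = dst W (it W n (i + len)) := by
  induction len generalizing f with
  | zero => intro i; simp [fin, List.range'_succ]
  | succ len ih =>
    intro i
    rw [List.range'_succ, List.map_cons]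
    change fin W (dst W (it W n i)) ((List.range' (i + 1) (len + 1)).map (it W n)) = _
    rw [ih]
    congr 2
    omega

/-- The trail. -/
theorem trail (hn : 2 ≤ n) (hW : IsCut n W) : ∃ L : List Edge, (entryE n :: L).Nodup ∧
    (∀ e ∈ entryE n :: L, bd W e ∧ e ∈ boxE n) ∧ Chn W (0, n - 1) (entryE n :: L) ∧
    fin W (0, n - 1) (entryE n :: L) = (n - 1, 0) := by
  obtain ⟨m, hm1, hm2⟩ := exists_trail hn hW
  have h0 : it W n 0 = entryE n := rfl
  have hL : (List.range' 0 (m + 1)).map (it W n) =
      entryE n :: (List.range' 1 m).map (it W n) := by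
    rw [List.range'_succ, List.map_cons, h0]
  refine ⟨(List.range' 1 m).map (it W n), ?_, ?_, ?_, ?_⟩
  · rw [← hL]
    refine List.Nodup.map_on ?_ (List.nodup_range')
    intro i hi j hj hij
    rw [List.mem_range'_1] at hi hj
    by_contra hne
    rcases Nat.lt_or_gt_of_ne hne with h2 | h2
    · exact it_inj hn hW i j h2 (fun l hl => hm2 l (by omega)) hij
    · exact it_inj hn hW j i h2 (fun l hl => hm2 l (by omega)) hij.symm
  · rw [← hL]
    intro e he
    obtain ⟨i, hi, rfl⟩ := List.mem_map.1 he
    rw [List.mem_range'_1] at hi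
    exact it_good hn hW i fun l hl => hm2 l (by omega)
  · rw [← hL]
    have h1 := chn_range hn hW hm2 (m + 1) 0 (by omega)
    rw [h0, (entry_good hn hW).2.2.1] at h1
    exact h1
  · rw [← hL, fin_range, Nat.zero_add, hm1]
    have h3 : ((n - 2, 0) : ℕ × ℕ) ∈ W := cut_bottom hW (by omega)
    simp [exitE, dst, tail, h3]
    omega

/-! ### Global counts -/

/-- indicator -/
noncomputable def chi (W : Finset (ℕ × ℕ)) (v : ℕ × ℕ) : ℤ := if v ∈ W then 1 else 0

theorem card_diff (A : Finset Edge) (W : Finset (ℕ × ℕ)) :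
    ((#{e ∈ A | tail e ∈ W ∧ head e ∉ W} : ℕ) : ℤ) - (#{e ∈ A | tail e ∉ W ∧ head e ∈ W} : ℕ) =
      ∑ e ∈ A, (chi W (tail e) - chi W (head e)) := by
  rw [card_filter, card_filter]
  push_cast
  rw [← Finset.sum_sub_distrib]
  refine Finset.sum_congr rfl fun e _ => ?_
  unfold chi
  by_cases h1 : tail e ∈ W <;> by_cases h2 : head e ∈ W <;> simp [h1, h2]

theorem sum_vert (hn : 2 ≤ n) (hW : IsCut n W) :
    ∑ e ∈ (boxE n).filter (fun e => e.2 = true), (chi W (tail e) - chi W (head e)) =
      ((n - 1 : ℕ) : ℤ) := by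
  have h1 : (boxE n).filter (fun e => e.2 = true) =
      (range n ×ˢ range (n - 1)).image (fun v => (v, true)) := by
    ext ⟨⟨x, y⟩, b⟩
    simp only [mem_filter, mem_boxE, mem_image, mem_product, mem_range, Prod.mk.injEq,
      Prod.exists]
    cases b
    · simp
    · simp [tail, head, box]
      omega
  rw [h1, sum_image (fun a _ b _ h => (Prod.ext_iff.1 h).1), sum_product]
  have h2 : ∀ x ∈ range n, ∑ y ∈ range (n - 1), (chi W (tail ((x, y), true)) -
      chi W (head ((x, y), true))) = if x < n - 1 then 1 else 0 := by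
    intro x hx
    rw [mem_range] at hx
    have h3 := Finset.sum_range_sub' (fun y => chi W (x, y)) (n - 1)
    have h4 : ∑ y ∈ range (n - 1), (chi W (tail ((x, y), true)) - chi W (head ((x, y), true))) =
        ∑ y ∈ range (n - 1), (chi W (x, y) - chi W (x, y + 1)) := rfl
    rw [h4, h3]
    have h5 : chi W (x, n - 1) = 0 := if_neg (cut_top hW (by omega) (by omega))
    rw [h5, sub_zero]
    split_ifs with h6
    · exact if_pos (cut_bottom hW (by omega))
    · exact if_neg (cut_right hW (by omega) (by omega))
  refine (Finset.sum_congr rfl fun x hx => h2 x hx).trans ?_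
  rw [Finset.sum_ite, sum_const_zero, add_zero, sum_const, nsmul_eq_mul, mul_one]
  congr 1
  have h7 : (range n).filter (fun x => x < n - 1) = range (n - 1) := by
    ext x
    simp only [mem_filter, mem_range]
    omega
  rw [h7, card_range]

theorem sum_horiz (hn : 2 ≤ n) (hW : IsCut n W) :
    ∑ e ∈ (boxE n).filter (fun e => ¬ e.2 = true), (chi W (tail e) - chi W (head e)) =
      ((n - 1 : ℕ) : ℤ) := by
  have h1 : (boxE n).filter (fun e => ¬ e.2 = true) =
      (range n ×ˢ range (n - 1)).image (fun v => ((v.2, v.1), false)) := by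
    ext ⟨⟨x, y⟩, b⟩
    simp only [mem_filter, mem_boxE, mem_image, mem_product, mem_range, Prod.mk.injEq,
      Prod.exists]
    cases b
    · simp [tail, head, box]
      omega
    · simp
  rw [h1, sum_image (fun a _ b _ h => by
    have h1 := (Prod.ext_iff.1 h).1
    exact Prod.ext (Prod.ext_iff.1 h1).2 (Prod.ext_iff.1 h1).1), sum_product]
  have h2 : ∀ y ∈ range n, ∑ x ∈ range (n - 1), (chi W (tail ((x, y), false)) -
      chi W (head ((x, y), false))) = if y < n - 1 then 1 else 0 := by
    intro y hy
    rw [mem_range] at hy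
    have h3 := Finset.sum_range_sub' (fun x => chi W (x, y)) (n - 1)
    have h4 : ∑ x ∈ range (n - 1), (chi W (tail ((x, y), false)) - chi W (head ((x, y), false))) =
        ∑ x ∈ range (n - 1), (chi W (x, y) - chi W (x + 1, y)) := rfl
    rw [h4, h3]
    have h5 : chi W (n - 1, y) = 0 := if_neg (cut_right hW (by omega) (by omega))
    rw [h5, sub_zero]
    split_ifs with h6
    · exact if_pos (cut_left hW (by omega))
    · exact if_neg (cut_top hW (by omega) (by omega))
  refine (Finset.sum_congr rfl fun y hy => h2 y hy).trans ?_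
  rw [Finset.sum_ite, sum_const_zero, add_zero, sum_const, nsmul_eq_mul, mul_one]
  congr 1
  have h7 : (range n).filter (fun x => x < n - 1) = range (n - 1) := by
    ext x
    simp only [mem_filter, mem_range]
    omega
  rw [h7, card_range]

/-- forward minus backward edges -/
theorem global_count (hn : 2 ≤ n) (hW : IsCut n W) :
    #{e ∈ boxE n | tail e ∈ W ∧ head e ∉ W} =
      2 * (n - 1) + #{e ∈ boxE n | tail e ∉ W ∧ head e ∈ W} := by
  have h1 := card_diff (boxE n) W
  have h2 := Finset.sum_filter_add_sum_filter_not (boxE n) (fun e => e.2 = true)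
    (fun e => chi W (tail e) - chi W (head e))
  rw [sum_vert hn hW, sum_horiz hn hW] at h2
  rw [← h2] at h1
  omega

theorem countP_fwd (W : Finset (ℕ × ℕ)) (L : List Edge) :
    L.countP (fun e => decide (tail e ∈ W)) = L.countP (isVf W) + L.countP (isHf W) := by
  induction L with
  | nil => simp
  | cons e L ih =>
    simp only [List.countP_cons, ih]
    obtain ⟨v, b⟩ := e
    cases b <;> by_cases hw : v ∈ W <;> simp [isVf, isHf, tail, hw] <;> omega

theorem countP_bwd (W : Finset (ℕ × ℕ)) (L : List Edge) :
    L.countP (fun e => !decide (tail e ∈ W)) = L.countP (isVb W) + L.countP (isHb W) := by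
  induction L with
  | nil => simp
  | cons e L ih =>
    simp only [List.countP_cons, ih]
    obtain ⟨v, b⟩ := e
    cases b <;> by_cases hw : v ∈ W <;> simp [isVb, isHb, tail, hw] <;> omega

/-- **The skeleton of a cut.** -/
theorem skeleton (hn : 2 ≤ n) (hW : IsCut n W) (ω : Edge → Bool) :
    ∃ l : List Edge, l.Nodup ∧ (∀ e ∈ l, e ∈ boxE n ∧ ω e = false) ∧
      2 * (n - 1) + nvx 0 l + nvy n l ≤ openfwd n ω W + l.length := by
  obtain ⟨L, hnd, hgood, hchn, hfin⟩ := trail hn hW
  set L' := entryE n :: L with hL'
  refine ⟨L'.filter (cf ω W), hnd.filter _, ?_, ?_⟩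
  · intro e he
    rw [List.mem_filter] at he
    refine ⟨(hgood e he.1).2, ?_⟩
    have h1 := he.2
    simp only [cf, Bool.and_eq_true, Bool.not_eq_true'] at h1
    exact h1.1
  -- displacement
  have hd := disp L' (0, n - 1) hchn
  rw [hfin] at hd
  -- negative variations
  have hny : nvy n (L'.filter (cf ω W)) ≤ L'.countP (isHb W) := by
    have h1 := nvy_le ω L' (0, n - 1) n hchn
    have h2 : (n - 1) - (n + 1) = 0 := by omega
    simp only [h2, Nat.zero_add] at h1
    exact h1
  have hnx : nvx 0 (L'.filter (cf ω W)) ≤ L'.countP (isVb W) := by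
    have hchn2 : Chn W (1, n - 1) L := by
      have h1 := hchn.2
      rw [(entry_good hn hW).2.2.2] at h1
      exact h1
    have h1 := nvx_le ω L (1, n - 1) 0 hchn2
    simp only [Nat.zero_add, Nat.sub_self] at h1
    have h2 : nvx 0 (L'.filter (cf ω W)) = nvx 0 (L.filter (cf ω W)) := by
      rw [hL', List.filter_cons]
      split_ifs
      · simp [nvx, entryE]
      · rfl
    rw [h2]
    refine h1.trans ?_
    rw [hL', List.countP_cons]
    omega
  -- sets
  set F := {e ∈ boxE n | tail e ∈ W ∧ head e ∉ W} with hF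
  set B := {e ∈ boxE n | tail e ∉ W ∧ head e ∈ W} with hB
  have hglob : #F = 2 * (n - 1) + #B := global_count hn hW
  set Fg := F.filter (fun e => e ∈ L') with hFg
  have hbdF : ∀ e ∈ L', (tail e ∈ W ↔ e ∈ F) := by
    intro e he
    obtain ⟨h1, h2⟩ := hgood e he
    rw [hF, mem_filter]
    constructor
    · intro h3
      rcases h1 with h1 | h1
      · exact ⟨h2, h1⟩
      · exact absurd h3 h1.1
    · rintro ⟨-, h3, -⟩
      exact h3
  have hFgc : #Fg = L'.countP (isVf W) + L'.countP (isHf W) := by
    have h1 : Fg = (L'.filter (fun e => decide (tail e ∈ W))).toFinset := by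
      ext e
      rw [hFg, mem_filter, List.mem_toFinset, List.mem_filter, decide_eq_true_iff]
      constructor
      · rintro ⟨h2, h3⟩
        exact ⟨h3, (hbdF e h3).2 h2⟩
      · rintro ⟨h2, h3⟩
        exact ⟨(hbdF e h2).1 h3, h2⟩
    rw [h1, List.toFinset_card_of_nodup (hnd.filter _), ← List.countP_eq_length_filter,
      countP_fwd]
  have hop : openfwd n ω W + #{e ∈ F | ω e = false} = #F := by
    unfold openfwd
    rw [hF, filter_filter]
    have h1 := Finset.card_filter_add_card_filter_not (s := {e ∈ boxE n | tail e ∈ W ∧ head e ∉ W})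
      (fun e => ω e = true)
    rw [filter_filter, filter_filter] at h1
    rw [← h1]
    congr 1
    · congr 1
      ext e
      simp only [mem_filter]
      tauto
    · congr 1
      ext e
      simp only [mem_filter, Bool.not_eq_true]
  have hC : #{e ∈ F | ω e = false} ≤ (L'.filter (cf ω W)).length + #(F \ Fg) := by
    have h1 : {e ∈ F | ω e = false} ⊆ (L'.filter (cf ω W)).toFinset ∪ (F \ Fg) := by
      intro e he
      rw [mem_filter] at he
      rw [mem_union, List.mem_toFinset, List.mem_filter, mem_sdiff]
      by_cases h2 : e ∈ L'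
      · left
        refine ⟨h2, ?_⟩
        simp [cf, he.2, (hbdF e h2).2 he.1]
      · right
        refine ⟨he.1, fun h3 => h2 ?_⟩
        rw [hFg, mem_filter] at h3
        exact h3.2
    refine (card_le_card h1).trans ((card_union_le _ _).trans ?_)
    rw [List.toFinset_card_of_nodup (hnd.filter _)]
  have hsd : #(F \ Fg) + #Fg = #F := by
    rw [card_sdiff_add_card_eq_card (filter_subset _ _)]
  have hBg : L'.countP (isVb W) + L'.countP (isHb W) ≤ #B := by
    have h1 : (L'.filter (fun e => !decide (tail e ∈ W))).toFinset ⊆ B := by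
      intro e he
      rw [List.mem_toFinset, List.mem_filter] at he
      obtain ⟨h2, h3⟩ := he
      simp only [Bool.not_eq_true', decide_eq_false_iff_not] at h3
      obtain ⟨h4, h5⟩ := hgood e h2
      rw [hB, mem_filter]
      rcases h4 with h4 | h4
      · exact absurd h4.1 h3
      · exact ⟨h5, h4⟩
    have h2 := card_le_card h1
    rw [List.toFinset_card_of_nodup (hnd.filter _), ← List.countP_eq_length_filter,
      countP_bwd] at h2
    exact h2
  simp only at hd
  omega

end Q292.OPF
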