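import Mathlib
import Pool.Agent.Q292.OPF.Trail3
import Pool.Agent.Q292.OPF.Rec
import Pool.Agent.Q292.OPF.Lpp

/-!
# Deterministic comparison of the flow and the last passage time
-/

namespace Q292.OPF

open Finset

/-- horizontal position of an edge -/
def ex (e : Edge) : ℕ := e.1.1 + 1

/-- vertical position of an edge, from the top -/
def ey (n : ℕ) (e : Edge) : ℕ := n - e.1.2

theorem nvx_eq (l : List Edge) : ∀ r, nvx r l = nv (r + 1) (l.map ex) := by
  induction l with
  | nil => intro r; simp [nvx, nv]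
  | cons e l ih =>
    intro r
    have h := ih e.1.1
    simp only [nvx, List.map_cons, nv, ex] at h ⊢
    omega

theorem nv_zero_le (l : List ℕ) (r : ℕ) : nv 0 l ≤ nv r l := by
  cases l with
  | nil => simp [nv]
  | cons x l => simp [nv]

theorem nvy_eq (n : ℕ) (l : List Edge) : (∀ e ∈ l, e.1.2 ≤ n) → ∀ r ≤ n,
    nvy r l = nv (n - r) (l.map (ey n)) := by
  induction l with
  | nil => intro _ r _; simp [nvy, nv]
  | cons e l ih =>
    intro hl r hr
    have h1 := hl e List.mem_cons_self
    have h := ih (fun e' he' => hl e' (List.mem_cons_of_mem _ he')) e.1.2 h1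
    simp only [nvy, List.map_cons, nv, ey] at h ⊢
    omega

/-- bad lists of edges -/
def BadE (n s : ℕ) (l : List Edge) : Prop :=
  l.Nodup ∧ (∀ e ∈ l, e ∈ boxE n) ∧ nv 0 (l.map ex) + nv 0 (l.map (ey n)) ≤ l.length ∧
  (l.length ≤ s * sm (s - 1) 0 (l.map ex) ∨ l.length ≤ s * sm (s - 1) 0 (l.map (ey n)))

/-- positions of sites -/
def sx (v : ℕ × ℕ) : ℕ := v.1 + 1

/-- positions of sites -/
def sy (v : ℕ × ℕ) : ℕ := v.2 + 1

/-- bad lists of sites -/
def BadS (n s : ℕ) (l : List (ℕ × ℕ)) : Prop :=
  (∀ v ∈ l, v.1 < n ∧ v.2 < n) ∧ nv 0 (l.map sx) + nv 0 (l.map sy) ≤ l.length ∧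
  (l.length ≤ s * sm (s - 1) 0 (l.map sx) ∨ l.length ≤ s * sm (s - 1) 0 (l.map sy))

/-- flipping of the vertical coordinate -/
def flip (n j : ℕ) : ℕ := if j < n then n - 1 - j else j

theorem flip_lt {n j : ℕ} (h : j < n) : flip n j < n := by
  unfold flip
  rw [if_pos h]
  omega

theorem flip_flip (n j : ℕ) : flip n (flip n j) = j := by
  unfold flip
  split_ifs <;> omega

theorem mem_box_of_boxE {n : ℕ} {e : Edge} (h : e ∈ boxE n) : e.1.1 < n ∧ e.1.2 < n := by
  rw [mem_boxE] at h
  exact h.1

/-- **The flow is at least the trivial bound minus the last passage time.** -/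
theorem flow_ge {n s : ℕ} (hn : 2 ≤ n) (hs : 5 ≤ s) (ω : Edge → Bool) (w : ℕ × ℕ → ℕ)
    (hw : ∀ e : Edge, ω e = false → 1 ≤ w e.1) {t : ℝ}
    (hgood : ∀ l, BadE n s l → t ≤ l.length → ¬ ∀ e ∈ l, ω e = false)
    (hT : t ≤ Pool.Agent.W533.LP.T (fun i j => w (i, flip n j)) n n) :
    (s - 4) * (2 * (n - 1)) ≤ (s - 4) * V n ω + s * Pool.Agent.W533.LP.T (fun i j => w (i, flip n j)) n n := by
  set Tn := Pool.Agent.W533.LP.T (fun i j => w (i, flip n j)) n n with hTn
  obtain ⟨W, hW, hVW⟩ : ∃ W, IsCut n W ∧ openfwd n ω W ≤ V n ω := by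
    by_contra hcon
    push Not at hcon
    have := le_V_of_cuts (n := n) (ω := ω) (k := V n ω + 1) fun W hW => hcon W hW
    omega
  obtain ⟨l, hnd, hl, hlen⟩ := skeleton hn hW ω
  have h1 : nv 0 (l.map ex) ≤ nvx 0 l := by
    rw [nvx_eq]
    exact nv_zero_le _ _
  have h2 : nvy n l = nv 0 (l.map (ey n)) := by
    rw [nvy_eq n l (fun e he => (mem_box_of_boxE (hl e he).1).2.le) n le_rfl, Nat.sub_self]
  -- the key inequality for the length
  have key : nv 0 (l.map ex) + nv 0 (l.map (ey n)) ≤ l.length →
      (s - 4) * l.length ≤ s * Tn := by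
    intro hnv
    by_cases ht : t ≤ l.length
    · have hnb : ¬ BadE n s l := fun hb => hgood l hb ht fun e he => (hl e he).2
      have hnb2 : s * sm (s - 1) 0 (l.map ex) < l.length ∧
          s * sm (s - 1) 0 (l.map (ey n)) < l.length := by
        constructor
        · by_contra hcon
          exact hnb ⟨hnd, fun e he => (hl e he).1, hnv, Or.inl (not_lt.1 hcon)⟩
        · by_contra hcon
          exact hnb ⟨hnd, fun e he => (hl e he).1, hnv, Or.inr (not_lt.1 hcon)⟩
      have h3 := many_recs ex (ey n) l (by omega : 1 ≤ s) hnv hnb2.1 hnb2.2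
      set r := recs ex (ey n) 0 0 l with hr
      have hsub : r.Sublist l := recs_sublist ex (ey n) l 0 0
      have hpw := recs_pairwise ex (ey n) l 0 0
      have h4 : r.length ≤ Tn := by
        have h5 := chain_le_T (fun i j => w (i, flip n j))
          (r.map fun e : Edge => (e.1.1, n - 1 - e.1.2)) n n ?_ ?_
        · rw [List.length_map] at h5
          exact h5
        · intro v hv
          obtain ⟨e, he, rfl⟩ := List.mem_map.1 hv
          have h6 := hl e (hsub.subset he)
          have h7 := mem_box_of_boxE h6.1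
          refine ⟨h7.1, by simp only; omega, ?_⟩
          have h8 : flip n (n - 1 - e.1.2) = e.1.2 := by
            unfold flip
            split_ifs <;> omega
          simp only [h8]
          exact hw e h6.2
        · rw [List.pairwise_map]
          refine List.Pairwise.imp_of_mem ?_ hpw
          intro a b ha hb hab
          have h6 := mem_box_of_boxE (hl a (hsub.subset ha)).1
          have h7 := mem_box_of_boxE (hl b (hsub.subset hb)).1
          unfold ex ey at hab
          simp only
          omega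
      have h5 : (s - 4) * l.length + 4 * l.length = s * l.length := by
        rw [← Nat.add_mul]
        congr 1
        omega
      have h6 : s * r.length ≤ s * Tn := Nat.mul_le_mul_left _ h4
      omega
    · have h3 : l.length ≤ Tn := by
        have : (l.length : ℝ) ≤ Tn := by linarith
        exact_mod_cast this
      calc (s - 4) * l.length ≤ (s - 4) * Tn := Nat.mul_le_mul_left _ h3
        _ ≤ s * Tn := Nat.mul_le_mul_right _ (by omega)
  by_cases hnv : nv 0 (l.map ex) + nv 0 (l.map (ey n)) ≤ l.length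
  · have h3 := key hnv
    have h4 : 2 * (n - 1) ≤ V n ω + l.length := by omega
    have h5 := Nat.mul_le_mul_left (s - 4) h4
    rw [Nat.mul_add] at h5
    omega
  · have h4 : 2 * (n - 1) ≤ V n ω := by omega
    have h5 := Nat.mul_le_mul_left (s - 4) h4
    omega

end Q292.OPF
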