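import Mathlib
import Pool.Agent.Q292.OPF.Det
import Pool.Agent.W533.LP.Defs

/-!
# The probability space: percolation with geometric decorations
-/

namespace Q292.OPF

open MeasureTheory ProbabilityTheory

/-- the environment: two bits and a geometric variable at each site -/
abbrev Om := ℕ × ℕ → (Bool → Bool) × ℕ

/-- law at one site -/
noncomputable def siteM (p : unitInterval) : Measure ((Bool → Bool) × ℕ) :=
  (Measure.infinitePi fun _ : Bool => bernoulliMeasure true false p).prod
    (geometricMeasure (p * p))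

instance (p : unitInterval) : IsProbabilityMeasure (siteM p) := by
  unfold siteM
  infer_instance

/-- law of the environment -/
noncomputable def mu (p : unitInterval) : Measure Om := Measure.infinitePi fun _ => siteM p

instance (p : unitInterval) : IsProbabilityMeasure (mu p) := by
  unfold mu
  infer_instance

instance (p : unitInterval) : IsProbabilityMeasure (perc p) := by
  unfold perc
  infer_instance

/-- the percolation configuration -/
def th (ω : Om) : Edge → Bool := fun e => (ω e.1).1 e.2

/-- the weight of one site -/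
def wgt (u : (Bool → Bool) × ℕ) : ℕ := if u.1 true = true ∧ u.1 false = true then 0 else u.2 + 1

theorem measurable_th : Measurable th := by
  unfold th
  fun_prop

theorem measurable_wgt : Measurable wgt := by
  unfold wgt
  refine Measurable.ite ?_ measurable_const (by fun_prop)
  exact (measurableSet_eq_fun (by fun_prop) (by fun_prop)).inter
    (measurableSet_eq_fun (by fun_prop) (by fun_prop))

theorem map_th (p : unitInterval) : (mu p).map th = perc p := by
  have h1 : th = (MeasurableEquiv.curry (ℕ × ℕ) Bool Bool).symm ∘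
      (fun (ω : Om) (i : ℕ × ℕ) => (ω i).1) := by
    funext ω e
    rfl
  have h2 : (mu p).map (fun (ω : Om) (i : ℕ × ℕ) => (ω i).1) =
      Measure.infinitePi fun _ : ℕ × ℕ =>
        Measure.infinitePi fun _ : Bool => bernoulliMeasure true false p := by
    unfold mu
    have h3 := Measure.infinitePi_map_pi (fun _ : ℕ × ℕ => siteM p)
      (f := fun (_ : ℕ × ℕ) (u : (Bool → Bool) × ℕ) => u.1) (fun _ => measurable_fst)
    rw [h3]
    congr 1
    funext i
    unfold siteM
    have h4 := Measure.map_fst_prod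
      (μ := (Measure.infinitePi fun _ : Bool => bernoulliMeasure true false p))
      (ν := geometricMeasure (p * p))
    rw [measure_univ, one_smul] at h4
    exact h4
  rw [h1, ← Measure.map_map (by fun_prop) (by fun_prop), h2,
    Measure.infinitePi_map_curry_symm]
  rfl

theorem wgt_law (p : unitInterval) (hp : 0 < (p : ℝ)) (k : ℕ) :
    (siteM p).real {u | wgt u = k} = (1 - (1 - (p : ℝ) * p)) * (1 - (p : ℝ) * p) ^ k := by
  have hpp : p * p ≠ 0 := by
    intro h
    have h2 : ((p * p : unitInterval) : ℝ) = 0 := by rw [h]; rfl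
    rw [Set.Icc.coe_mul] at h2
    nlinarith
  have hboth : (Measure.infinitePi fun _ : Bool => bernoulliMeasure true false p).real
      {f : Bool → Bool | f true = true ∧ f false = true} = (p : ℝ) * p := by
    have h1 : {f : Bool → Bool | f true = true ∧ f false = true} =
        Set.pi ((Finset.univ : Finset Bool) : Set Bool) (fun _ => {true}) := by
      ext f
      simp only [Set.mem_ofPred_eq, Set.mem_pi, Finset.coe_univ, Set.mem_univ, forall_true_left,
        Set.mem_singleton_iff, Bool.forall_bool]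
      tauto
    rw [h1, measureReal_def, Measure.infinitePi_pi _ (fun _ _ => measurableSet_singleton _)]
    rw [ENNReal.toReal_prod]
    have h2 : (bernoulliMeasure true false p {true}).toReal = p := by
      have := bernoulliMeasure_real_apply_of_mem_of_notMem (x := true) (y := false) p
        (s := {true}) (measurableSet_singleton _) (by simp) (by simp)
      exact this
    rw [Finset.prod_const, h2]
    simp
    ring
  have hmeas : MeasurableSet {f : Bool → Bool | f true = true ∧ f false = true} :=
    (measurableSet_eq_fun (by fun_prop) (by fun_prop)).inter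
      (measurableSet_eq_fun (by fun_prop) (by fun_prop))
  cases k with
  | zero =>
    have h1 : {u : (Bool → Bool) × ℕ | wgt u = 0} =
        {f : Bool → Bool | f true = true ∧ f false = true} ×ˢ Set.univ := by
      ext u
      simp [wgt]
    rw [h1]
    unfold siteM
    rw [measureReal_prod_prod, hboth]
    simp
  | succ k =>
    have h1 : {u : (Bool → Bool) × ℕ | wgt u = k + 1} =
        {f : Bool → Bool | f true = true ∧ f false = true}ᶜ ×ˢ {k} := by
      ext u
      by_cases h : u.1 true = true ∧ u.1 false = true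
      · simp [wgt, h]
      · have h5 : wgt u = u.2 + 1 := by
          unfold wgt
          rw [if_neg h]
        rw [Set.mem_ofPred_eq, h5, Set.mem_prod, Set.mem_compl_iff, Set.mem_ofPred_eq,
          Set.mem_singleton_iff]
        constructor
        · intro h6
          exact ⟨h, by omega⟩
        · intro h6
          have := h6.2
          omega
    rw [h1]
    unfold siteM
    rw [measureReal_prod_prod, probReal_compl_eq_one_sub hmeas, hboth,
      geometricMeasure_real_singleton hpp, Set.Icc.coe_mul]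
    ring

/-- the weights of the sites -/
def W (ω : Om) (v : ℕ × ℕ) : ℕ := wgt (ω v)

theorem measurable_W (v : ℕ × ℕ) : Measurable fun ω : Om => W ω v :=
  measurable_wgt.comp (measurable_pi_apply v)

theorem W_law (p : unitInterval) (hp : 0 < (p : ℝ)) (v : ℕ × ℕ) (k : ℕ) :
    (mu p).real {ω | W ω v = k} = (1 - (1 - (p : ℝ) * p)) * (1 - (p : ℝ) * p) ^ k := by
  rw [← wgt_law p hp k]
  have h1 := measurePreserving_eval_infinitePi (fun _ : ℕ × ℕ => siteM p) v
  have h2 := h1.measureReal_preimage (s := {u | wgt u = k})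
    (measurable_wgt (measurableSet_singleton k)).nullMeasurableSet
  exact h2

theorem W_indep (p : unitInterval) : iIndepFun (fun v (ω : Om) => W ω v) (mu p) :=
  iIndepFun_infinitePi (P := fun _ : ℕ × ℕ => siteM p) (X := fun _ u => wgt u)
    (fun _ => measurable_wgt)

theorem bulk (p : unitInterval) (hp : 0 < (p : ℝ)) (n : ℕ) :
    Pool.Agent.W533.LP.GeoFam (mu p) (fun _ : ℕ × ℕ => 1 - (p : ℝ) * p)
      (fun v ω => W ω (v.1, flip n v.2)) where
  prob := inferInstance
  pos := fun _ => ⟨by nlinarith [p.2.1, p.2.2], by nlinarith⟩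
  meas := fun v => measurable_W _
  indep := (W_indep p).precomp (g := fun v : ℕ × ℕ => (v.1, flip n v.2)) (by
    intro a b h
    simp only [Prod.mk.injEq] at h
    refine Prod.ext h.1 ?_
    rw [← flip_flip n a.2, h.2, flip_flip])
  law := fun v k => W_law p hp _ k

/-- a closed edge gives a positive weight -/
theorem one_le_W (ω : Om) (e : Edge) (h : th ω e = false) : 1 ≤ W ω e.1 := by
  obtain ⟨v, b⟩ := e
  unfold th at h
  simp only at h
  unfold W wgt
  rw [if_neg]
  · omega
  · rintro ⟨h1, h2⟩
    cases b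
    · rw [h2] at h
      exact absurd h (by simp)
    · rw [h1] at h
      exact absurd h (by simp)

theorem exists_closed (ω : Om) (v : ℕ × ℕ) (h : 1 ≤ W ω v) : ∃ b, th ω (v, b) = false := by
  by_contra hcon
  push Not at hcon
  have h1 := hcon true
  have h2 := hcon false
  simp only [Bool.not_eq_false] at h1 h2
  unfold W wgt at h
  rw [if_pos ⟨h1, h2⟩] at h
  omega

/-- probability of dominating the multiplicities -/
theorem geo_ge {Ω : Type} [MeasurableSpace Ω] {μ : Measure Ω} {q : ℝ} {X : ℕ × ℕ → Ω → ℕ}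
    (hX : Pool.Agent.W533.LP.GeoFam μ (fun _ => q) X) (v : ℕ × ℕ) (m : ℕ) :
    μ.real {ω | m ≤ X v ω} = q ^ m := by
  have := hX.prob
  induction m with
  | zero => simp
  | succ m ih =>
    have h1 : {ω | m ≤ X v ω} = {ω | X v ω = m} ∪ {ω | m + 1 ≤ X v ω} := by
      ext ω
      simp only [Set.mem_ofPred_eq, Set.mem_union]
      omega
    have h2 : Disjoint {ω | X v ω = m} {ω | m + 1 ≤ X v ω} := by
      rw [Set.disjoint_left]
      intro ω h3 h4
      simp only [Set.mem_ofPred_eq] at h3 h4
      omega
    rw [h1, measureReal_union h2 (measurableSet_le measurable_const (hX.meas v)), hX.law v m] at ih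
    have h3 : q ^ (m + 1) = q ^ m - (1 - q) * q ^ m := by ring
    rw [h3]
    linarith

theorem count_prob {Ω : Type} [MeasurableSpace Ω] {μ : Measure Ω} {q : ℝ} {X : ℕ × ℕ → Ω → ℕ}
    (hX : Pool.Agent.W533.LP.GeoFam μ (fun _ => q) X) (l : List (ℕ × ℕ)) :
    μ.real {ω | ∀ v, l.count v ≤ X v ω} = q ^ l.length := by
  have hpr := hX.prob
  have h1 : {ω | ∀ v, l.count v ≤ X v ω} = ⋂ v ∈ l.toFinset, X v ⁻¹' {k | l.count v ≤ k} := by
    ext ω
    simp only [Set.mem_ofPred_eq, Set.mem_iInter, Set.mem_preimage, List.mem_toFinset]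
    constructor
    · intro h v _
      exact h v
    · intro h v
      by_cases hv : v ∈ l
      · exact h v hv
      · rw [List.count_eq_zero.2 hv]
        exact Nat.zero_le _
  rw [h1, measureReal_def, hX.indep.measure_inter_preimage_eq_mul l.toFinset
    (sets := fun v => {k | l.count v ≤ k}) (fun v _ => measurableSet_le measurable_const measurable_id),
    ENNReal.toReal_prod]
  have h2 : ∀ v ∈ l.toFinset, (μ (X v ⁻¹' {k | l.count v ≤ k})).toReal = q ^ l.count v :=
    fun v _ => geo_ge hX v (l.count v)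
  rw [Finset.prod_congr rfl h2, Finset.prod_pow_eq_pow_sum]
  congr 1
  rw [← List.sum_toFinset_count_eq_length l]
  refine Finset.sum_congr rfl fun v _ => ?_
  congr 1
  exact lawful_beq_subsingleton _ _

theorem closed_prob (p : unitInterval) (l : List Edge) (hl : l.Nodup) :
    (perc p).real {ω | ∀ e ∈ l, ω e = false} = (1 - (p : ℝ)) ^ l.length := by
  have h1 : {ω : Edge → Bool | ∀ e ∈ l, ω e = false} =
      Set.pi (l.toFinset : Set Edge) (fun _ => {false}) := by
    ext ω
    simp [Set.mem_pi]
  rw [h1, measureReal_def]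
  unfold perc
  rw [Measure.infinitePi_pi _ (fun _ _ => measurableSet_singleton _), ENNReal.toReal_prod]
  have h2 : (bernoulliMeasure true false p {false}).toReal = 1 - p := by
    have := bernoulliMeasure_real_apply_of_notMem_of_mem (x := true) (y := false) p
      (s := {false}) (measurableSet_singleton _) (by simp) (by simp)
    exact this
  rw [Finset.prod_const, h2, List.toFinset_card_of_nodup hl]

/-- union bound -/
theorem union_small {Ω β : Type} [MeasurableSpace Ω] (μ : Measure Ω) [IsProbabilityMeasure μ]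
    (A : List β → Set Ω) (C : ℕ → Finset (List β)) (t : ℝ)
    (h : ∀ c : ℕ, t ≤ c → ∑ l ∈ C c, μ.real (A l) ≤ 2 * (1 / 2 : ℝ) ^ c) :
    μ.real {ω | ∃ c : ℕ, t ≤ c ∧ ∃ l ∈ C c, ω ∈ A l} ≤ 4 * (1 / 2 : ℝ) ^ ⌈t⌉₊ := by
  have h1 : {ω | ∃ c : ℕ, t ≤ c ∧ ∃ l ∈ C c, ω ∈ A l} ⊆
      ⋃ k : ℕ, ⋃ l ∈ C (⌈t⌉₊ + k), A l := by
    rintro ω ⟨c, hc, l, hl, hω⟩
    have h2 : ⌈t⌉₊ ≤ c := Nat.ceil_le.2 hc
    simp only [Set.mem_iUnion]
    refine ⟨c - ⌈t⌉₊, l, ?_, hω⟩
    rw [Nat.add_sub_cancel' h2]
    exact hl
  have h2 : ∀ k : ℕ, μ (⋃ l ∈ C (⌈t⌉₊ + k), A l) ≤ ENNReal.ofReal (2 * (1 / 2 : ℝ) ^ (⌈t⌉₊ + k)) := by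
    intro k
    refine (measure_biUnion_finset_le _ _).trans ?_
    have h3 := h (⌈t⌉₊ + k) (by
      push_cast
      have := Nat.le_ceil t
      have h4 : (0 : ℝ) ≤ k := Nat.cast_nonneg k
      linarith)
    refine le_trans (le_of_eq ?_) (ENNReal.ofReal_le_ofReal h3)
    rw [ENNReal.ofReal_sum_of_nonneg (fun _ _ => measureReal_nonneg)]
    refine Finset.sum_congr rfl fun l _ => ?_
    rw [measureReal_def, ENNReal.ofReal_toReal (measure_ne_top _ _)]
  have h3 : μ (⋃ k : ℕ, ⋃ l ∈ C (⌈t⌉₊ + k), A l) ≤ ENNReal.ofReal (4 * (1 / 2 : ℝ) ^ ⌈t⌉₊) := by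
    refine (measure_iUnion_le _).trans ((ENNReal.tsum_le_tsum h2).trans ?_)
    have hs : HasSum (fun k : ℕ => 2 * (1 / 2 : ℝ) ^ (⌈t⌉₊ + k)) (4 * (1 / 2 : ℝ) ^ ⌈t⌉₊) := by
      have h4 := (hasSum_geometric_two).mul_left (2 * (1 / 2 : ℝ) ^ ⌈t⌉₊)
      have e1 : (fun k : ℕ => 2 * (1 / 2 : ℝ) ^ ⌈t⌉₊ * (1 / 2 : ℝ) ^ k) =
          fun k : ℕ => 2 * (1 / 2 : ℝ) ^ (⌈t⌉₊ + k) := by
        funext k
        rw [pow_add]
        ring
      have e2 : 2 * (1 / 2 : ℝ) ^ ⌈t⌉₊ * 2 = 4 * (1 / 2 : ℝ) ^ ⌈t⌉₊ := by ring
      rw [e1, e2] at h4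
      exact h4
    rw [← ENNReal.ofReal_tsum_of_nonneg (fun k => by positivity) hs.summable, hs.tsum_eq]
  have h4 := (measure_mono h1).trans h3
  rw [measureReal_def]
  exact ENNReal.toReal_le_of_le_ofReal (by positivity) h4

end Q292.OPF
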