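import Mathlib
import Pool.Agent.Q292.OPF.Space
import Pool.Agent.Q292.OPF.Count

/-!
# Bad lists are unlikely
-/

namespace Q292.OPF

open MeasureTheory ProbabilityTheory Finset

theorem bad_count {α : Type*} [DecidableEq α] (px py : α → ℕ) {h k : ℝ} (h0 : 0 < h)
    (h12 : h ≤ 1 / 2) (hk : 1 ≤ k) {s : ℕ} (hs : 1 ≤ s) (hks : k ^ s = 1 / h) (n c : ℕ)
    (hc : h * n ≤ c) (B : Finset α) (hB : ∀ a ∈ B, px a < n + 1 ∧ py a < n + 1)
    (hm : ∀ u v, #{a ∈ B | px a = u ∧ py a = v} ≤ 2)
    (C : Finset (List α)) (hC : C ⊆ lists B c)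
    (h1 : ∀ l ∈ C, nv 0 (l.map px) + nv 0 (l.map py) ≤ c)
    (h2 : ∀ l ∈ C, c ≤ s * sm (s - 1) 0 (l.map px) ∨ c ≤ s * sm (s - 1) 0 (l.map py)) :
    (#C : ℝ) ≤ 2 * (4 * (2 * s + 1) * Real.exp 8 / (h ^ 2 * k)) ^ c := by
  classical
  have e1 := count px py h0 h12 hk hs hks n c hc B hB hm
    (C.filter fun l => c ≤ s * sm (s - 1) 0 (l.map px)) ((filter_subset _ _).trans hC)
    (fun l hl => h1 l (mem_filter.1 hl).1) (fun l hl => (mem_filter.1 hl).2)
  have e2 := count py px h0 h12 hk hs hks n c hc B (fun a ha => (hB a ha).symm)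
    (fun u v => by
      have h3 : {a ∈ B | py a = u ∧ px a = v} = {a ∈ B | px a = v ∧ py a = u} := by
        ext a
        simp only [mem_filter]
        tauto
      rw [h3]
      exact hm v u)
    (C.filter fun l => c ≤ s * sm (s - 1) 0 (l.map py)) ((filter_subset _ _).trans hC)
    (fun l hl => by
      have := h1 l (mem_filter.1 hl).1
      omega) (fun l hl => (mem_filter.1 hl).2)
  have h3 : #C ≤ #(C.filter fun l => c ≤ s * sm (s - 1) 0 (l.map px)) +
      #(C.filter fun l => c ≤ s * sm (s - 1) 0 (l.map py)) := by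
    refine (card_le_card ?_).trans (card_union_le _ _)
    intro l hl
    rw [mem_union, mem_filter, mem_filter]
    rcases h2 l hl with h | h
    · exact Or.inl ⟨hl, h⟩
    · exact Or.inr ⟨hl, h⟩
  have h4 : (#C : ℝ) ≤ #(C.filter fun l => c ≤ s * sm (s - 1) 0 (l.map px)) +
      #(C.filter fun l => c ≤ s * sm (s - 1) 0 (l.map py)) := by exact_mod_cast h3
  linarith

/-- the parameter is close enough to one -/
structure Near (p : unitInterval) (s : ℕ) (h k : ℝ) : Prop where
  h0 : 0 < h
  h12 : h ≤ 1 / 2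
  hp : h ^ 2 = 1 - (p : ℝ)
  hs : 5 ≤ s
  hks : k ^ s = 1 / h
  hk : 16 * (2 * s + 1) * Real.exp 8 ≤ k

theorem Near.one_le {p : unitInterval} {s : ℕ} {h k : ℝ} (hN : Near p s h k) : 1 ≤ k := by
  refine le_trans ?_ hN.hk
  have h1 : (1 : ℝ) ≤ Real.exp 8 := Real.one_le_exp (by norm_num)
  have h2 : (0 : ℝ) ≤ s := Nat.cast_nonneg s
  nlinarith

theorem edges_unlikely {p : unitInterval} {s : ℕ} {h k : ℝ} (hN : Near p s h k) (n : ℕ) :
    (perc p).real {ω | ∃ l : List Edge, BadE n s l ∧ h * n ≤ l.length ∧ ∀ e ∈ l, ω e = false} ≤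
      4 * (1 / 2 : ℝ) ^ ⌈h * n⌉₊ := by
  classical
  have hk1 := hN.one_le
  have h1 := union_small (perc p) (fun l : List Edge => {ω : Edge → Bool | ∀ e ∈ l, ω e = false})
    (fun c => (lists (boxE n) c).filter (BadE n s)) (h * n) (fun c hc => ?_)
  · refine (measureReal_mono ?_ (measure_ne_top _ _)).trans h1
    rintro ω ⟨l, hb, hl, hω⟩
    refine ⟨l.length, hl, l, ?_, hω⟩
    rw [mem_filter, mem_lists]
    exact ⟨⟨rfl, hb.2.1⟩, hb⟩
  · have h2 : ∀ l ∈ (lists (boxE n) c).filter (BadE n s),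
        (perc p).real {ω : Edge → Bool | ∀ e ∈ l, ω e = false} = (h ^ 2) ^ c := by
      intro l hl
      rw [mem_filter, mem_lists] at hl
      rw [closed_prob p l hl.2.1, hl.1.1, hN.hp]
    rw [Finset.sum_congr rfl h2, sum_const, nsmul_eq_mul]
    have h3 := bad_count ex (ey n) hN.h0 hN.h12 hk1 (by have := hN.hs; omega) hN.hks n c hc
      (boxE n) (fun e he => by
        have := mem_box_of_boxE he
        unfold ex ey
        omega) (fun u v => by
        have h4 : #{a ∈ boxE n | ex a = u ∧ ey n a = v} ≤ #(univ : Finset Bool) := by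
          refine card_le_card_of_injOn (fun e => e.2) (fun _ _ => by simp) ?_
          intro a ha b hb hab
          simp only [coe_filter, Set.mem_ofPred_eq] at ha hb
          have h5 := mem_box_of_boxE ha.1
          have h6 := mem_box_of_boxE hb.1
          unfold ex ey at ha hb
          refine Prod.ext (Prod.ext ?_ ?_) hab <;> omega
        exact h4) ((lists (boxE n) c).filter (BadE n s)) (filter_subset _ _)
      (fun l hl => by
        rw [mem_filter, mem_lists] at hl
        have := hl.2.2.2.1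
        rw [hl.1.1] at this
        exact this)
      (fun l hl => by
        rw [mem_filter, mem_lists] at hl
        have := hl.2.2.2.2
        rw [hl.1.1] at this
        exact this)
    have h4 : 4 * (2 * (s : ℝ) + 1) * Real.exp 8 / (h ^ 2 * k) * h ^ 2 ≤ 1 / 2 := by
      have h5 : 4 * (2 * (s : ℝ) + 1) * Real.exp 8 / (h ^ 2 * k) * h ^ 2 =
          4 * (2 * (s : ℝ) + 1) * Real.exp 8 / k := by
        have := hN.h0.ne'
        have : k ≠ 0 := by linarith
        field_simp
      rw [h5, div_le_iff₀ (by linarith)]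
      have := hN.hk
      have h6 : 0 < (2 * (s : ℝ) + 1) * Real.exp 8 := by positivity
      nlinarith
    calc (#((lists (boxE n) c).filter (BadE n s)) : ℝ) * (h ^ 2) ^ c
        ≤ 2 * (4 * (2 * s + 1) * Real.exp 8 / (h ^ 2 * k)) ^ c * (h ^ 2) ^ c :=
          mul_le_mul_of_nonneg_right h3 (by positivity)
      _ = 2 * (4 * (2 * s + 1) * Real.exp 8 / (h ^ 2 * k) * h ^ 2) ^ c := by
          rw [mul_assoc, ← mul_pow]
      _ ≤ 2 * (1 / 2 : ℝ) ^ c := by
          have h7 : 0 ≤ 4 * (2 * (s : ℝ) + 1) * Real.exp 8 / (h ^ 2 * k) * h ^ 2 := by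
            have := hN.h0
            positivity
          exact mul_le_mul_of_nonneg_left (pow_le_pow_left₀ h7 h4 c) (by norm_num)

theorem sites_unlikely {p : unitInterval} {s : ℕ} {h k : ℝ} (hN : Near p s h k)
    (hp0 : 0 < (p : ℝ)) (n : ℕ) :
    (mu p).real {ω | ∃ l : List (ℕ × ℕ), BadS n s l ∧ h * n ≤ l.length ∧
      ∀ v, l.count v ≤ W ω (v.1, flip n v.2)} ≤ 4 * (1 / 2 : ℝ) ^ ⌈h * n⌉₊ := by
  classical
  have hk1 := hN.one_le
  have h1 := union_small (mu p) (fun l : List (ℕ × ℕ) => {ω : Om | ∀ v, l.count v ≤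
      W ω (v.1, flip n v.2)})
    (fun c => (lists (range n ×ˢ range n) c).filter (BadS n s)) (h * n) (fun c hc => ?_)
  · refine (measureReal_mono ?_ (measure_ne_top _ _)).trans h1
    rintro ω ⟨l, hb, hl, hω⟩
    refine ⟨l.length, hl, l, ?_, hω⟩
    rw [mem_filter, mem_lists]
    refine ⟨⟨rfl, fun v hv => ?_⟩, hb⟩
    rw [mem_product, mem_range, mem_range]
    exact hb.1 v hv
  · have hp := hN.hp
    have h2 : ∀ l ∈ (lists (range n ×ˢ range n) c).filter (BadS n s),
        (mu p).real {ω : Om | ∀ v, l.count v ≤ W ω (v.1, flip n v.2)} ≤ (2 * h ^ 2) ^ c := by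
      intro l hl
      rw [mem_filter, mem_lists] at hl
      rw [count_prob (bulk p hp0 n) l, hl.1.1]
      refine pow_le_pow_left₀ ?_ ?_ c
      · nlinarith [p.2.1, p.2.2]
      · rw [hp]
        nlinarith [p.2.1, p.2.2]
    refine (Finset.sum_le_sum h2).trans ?_
    rw [sum_const, nsmul_eq_mul]
    have h3 := bad_count sx sy hN.h0 hN.h12 hk1 (by have := hN.hs; omega) hN.hks n c hc
      (range n ×ˢ range n) (fun e he => by
        rw [mem_product, mem_range, mem_range] at he
        unfold sx sy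
        omega) (fun u v => by
        have h4 : #{a ∈ range n ×ˢ range n | sx a = u ∧ sy a = v} ≤ #(univ : Finset Bool) := by
          refine card_le_card_of_injOn (fun e => true) (fun _ _ => by simp) ?_
          intro a ha b hb hab
          simp only [coe_filter, Set.mem_ofPred_eq] at ha hb
          unfold sx sy at ha hb
          refine Prod.ext ?_ ?_ <;> omega
        exact h4) ((lists (range n ×ˢ range n) c).filter (BadS n s)) (filter_subset _ _)
      (fun l hl => by
        rw [mem_filter, mem_lists] at hl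
        have := hl.2.2.1
        rw [hl.1.1] at this
        exact this)
      (fun l hl => by
        rw [mem_filter, mem_lists] at hl
        have := hl.2.2.2
        rw [hl.1.1] at this
        exact this)
    have h4 : 4 * (2 * (s : ℝ) + 1) * Real.exp 8 / (h ^ 2 * k) * (2 * h ^ 2) ≤ 1 / 2 := by
      have h5 : 4 * (2 * (s : ℝ) + 1) * Real.exp 8 / (h ^ 2 * k) * (2 * h ^ 2) =
          8 * (2 * (s : ℝ) + 1) * Real.exp 8 / k := by
        have := hN.h0.ne'
        have : k ≠ 0 := by linarith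
        field_simp
        ring
      rw [h5, div_le_iff₀ (by linarith)]
      have := hN.hk
      have h6 : 0 < (2 * (s : ℝ) + 1) * Real.exp 8 := by positivity
      nlinarith
    calc (#((lists (range n ×ˢ range n) c).filter (BadS n s)) : ℝ) * (2 * h ^ 2) ^ c
        ≤ 2 * (4 * (2 * s + 1) * Real.exp 8 / (h ^ 2 * k)) ^ c * (2 * h ^ 2) ^ c :=
          mul_le_mul_of_nonneg_right h3 (by positivity)
      _ = 2 * (4 * (2 * s + 1) * Real.exp 8 / (h ^ 2 * k) * (2 * h ^ 2)) ^ c := by
          rw [mul_assoc, ← mul_pow]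
      _ ≤ 2 * (1 / 2 : ℝ) ^ c := by
          have h7 : 0 ≤ 4 * (2 * (s : ℝ) + 1) * Real.exp 8 / (h ^ 2 * k) * (2 * h ^ 2) := by
            have := hN.h0
            positivity
          exact mul_le_mul_of_nonneg_left (pow_le_pow_left₀ h7 h4 c) (by norm_num)

end Q292.OPF
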