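import Mathlib
import Pool.Agent.Q292.OPF.Det

/-!
# Upper bound for the flow from antichains of closed edges
-/

namespace Q292.OPF

open Finset

/-- the cut below an antichain -/
theorem antichain_bound {n : ℕ} (hn : 2 ≤ n) (ω : Edge → Bool) (C : Finset Edge)
    (h1 : ∀ e ∈ C, ω e = false ∧ 1 ≤ e.1.1 ∧ e.1.1 + 2 ≤ n ∧ 1 ≤ e.1.2 ∧ e.1.2 + 2 ≤ n)
    (h2 : ∀ e ∈ C, ∀ e' ∈ C, e.1.1 ≤ e'.1.1 → e.1.2 ≤ e'.1.2 → e = e')
    : V n ω + #C ≤ 2 * (n - 1) := by
  classical
  set W : Finset (ℕ × ℕ) := (range n ×ˢ range n).filter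
    (fun v => v ∈ S n ∨ ∃ e ∈ C, v.1 ≤ e.1.1 ∧ v.2 ≤ e.1.2) with hWdef
  have hmem : ∀ v : ℕ × ℕ, v ∈ W ↔ (v.1 < n ∧ v.2 < n) ∧
      (v ∈ S n ∨ ∃ e ∈ C, v.1 ≤ e.1.1 ∧ v.2 ≤ e.1.2) := by
    intro v
    rw [hWdef, mem_filter, mem_product, mem_range, mem_range]
  have hW : IsCut n W := by
    constructor
    · intro v hv
      rw [hmem]
      refine ⟨?_, Or.inl hv⟩
      have h3 : (v.1 = 0 ∧ v.2 + 2 ≤ n) ∨ (v.2 = 0 ∧ 1 ≤ v.1 ∧ v.1 + 2 ≤ n) := hv
      omega
    · intro v hv hvW
      rw [hmem] at hvW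
      rcases hvW.2 with h3 | ⟨e, he, h3, h4⟩
      · exact S_not_T h3 hv
      · have h5 := h1 e he
        have h6 : (v.2 + 1 = n ∧ v.1 + 1 ≤ n) ∨ (v.1 + 1 = n ∧ v.2 + 2 ≤ n) := hv
        omega
  have hback : {e ∈ boxE n | tail e ∉ W ∧ head e ∈ W} = ∅ := by
    rw [Finset.eq_empty_iff_forall_notMem]
    intro e he
    rw [mem_filter] at he
    obtain ⟨h3, h4, h5⟩ := he
    apply h4
    rw [hmem] at h5 ⊢
    have h6 := mem_box_of_boxE h3
    refine ⟨h6, ?_⟩
    obtain ⟨⟨x, y⟩, b⟩ := e
    rcases h5.2 with h7 | ⟨e', he', h7, h8⟩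
    · left
      have h8 : ((head ((x, y), b)).1 = 0 ∧ (head ((x, y), b)).2 + 2 ≤ n) ∨
        ((head ((x, y), b)).2 = 0 ∧ 1 ≤ (head ((x, y), b)).1 ∧ (head ((x, y), b)).1 + 2 ≤ n) := h7
      show (x = 0 ∧ y + 2 ≤ n) ∨ (y = 0 ∧ 1 ≤ x ∧ x + 2 ≤ n)
      cases b <;> simp [head] at h8 <;> omega
    · right
      refine ⟨e', he', ?_, ?_⟩
      · show x ≤ e'.1.1
        cases b <;> simp [head] at h7 <;> omega
      · show y ≤ e'.1.2
        cases b <;> simp [head] at h8 <;> omega
  have hglob := global_count hn hW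
  rw [hback, card_empty, add_zero] at hglob
  have hV := V_le (ω := ω) hW
  have hsub : C ⊆ {e ∈ boxE n | tail e ∈ W ∧ head e ∉ W} := by
    intro e he
    have h3 := h1 e he
    rw [mem_filter, mem_boxE]
    obtain ⟨⟨x, y⟩, b⟩ := e
    simp only at h3
    refine ⟨⟨?_, ?_⟩, ?_, ?_⟩
    · show x < n ∧ y < n
      omega
    · cases b <;> simp [head, box] <;> omega
    · rw [hmem]
      exact ⟨by simp only [tail]; omega, Or.inr ⟨_, he, le_rfl, le_rfl⟩⟩
    · rw [hmem]
      rintro ⟨-, h4 | ⟨e', he', h5, h6⟩⟩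
      · have h8 : ((head ((x, y), b)).1 = 0 ∧ (head ((x, y), b)).2 + 2 ≤ n) ∨
          ((head ((x, y), b)).2 = 0 ∧ 1 ≤ (head ((x, y), b)).1 ∧ (head ((x, y), b)).1 + 2 ≤ n) := h4
        cases b <;> simp [head] at h8 <;> omega
      · have h7 : x ≤ e'.1.1 ∧ y ≤ e'.1.2 ∧ (x, y) ≠ e'.1 := by
          cases b <;> simp [head] at h5 h6 <;> refine ⟨by omega, by omega, ?_⟩ <;> intro h8 <;>
            rw [← h8] at h5 h6 <;> simp at h5 h6
        have h8 := h2 _ he _ he' h7.1 h7.2.1
        apply h7.2.2
        rw [← h8]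
  have h3 : openfwd n ω W + #C ≤ #{e ∈ boxE n | tail e ∈ W ∧ head e ∉ W} := by
    unfold openfwd
    rw [← card_union_of_disjoint]
    · refine card_le_card ?_
      intro e he
      rcases mem_union.1 he with he | he
      · rw [mem_filter] at he ⊢
        exact ⟨he.1, he.2.2⟩
      · exact hsub he
    · rw [Finset.disjoint_left]
      intro e he he'
      rw [mem_filter] at he
      rw [(h1 e he').1] at he
      exact absurd he.2.1 (by simp)
  omega

theorem count_le_one_of_lt {α : Type*} (f : α → ℕ) (l : List α)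
    (h : l.Pairwise fun a b => f a < f b) (a : ℕ) : l.countP (fun v => decide (f v = a)) ≤ 1 := by
  induction l with
  | nil => simp
  | cons b l ih =>
    rw [List.pairwise_cons] at h
    rw [List.countP_cons]
    have h1 := ih h.2
    by_cases hb : f b = a
    · have h2 : l.countP (fun v => decide (f v = a)) = 0 := by
        rw [List.countP_eq_zero]
        intro v hv
        have := h.1 v hv
        simp only [decide_eq_true_eq]
        omega
      rw [h2]
      simp [hb]
    · simp [hb]
      exact h1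

theorem pw_or {α : Type*} {R : α → α → Prop} (l : List α) (h : l.Pairwise R) :
    ∀ a ∈ l, ∀ b ∈ l, a ≠ b → R a b ∨ R b a := by
  induction l with
  | nil => intro a ha; simp at ha
  | cons c l ih =>
    rw [List.pairwise_cons] at h
    intro a ha b hb hab
    rcases List.mem_cons.1 ha with h1 | h1
    · rcases List.mem_cons.1 hb with h2 | h2
      · exact absurd (h1.trans h2.symm) hab
      · rw [h1]
        exact Or.inl (h.1 b h2)
    · rcases List.mem_cons.1 hb with h2 | h2
      · rw [h2]
        exact Or.inr (h.1 a h1)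
      · exact ih h.2 a h1 b h2 hab

/-- **The flow is at most the trivial bound minus the last passage time.** -/
theorem flow_le {n s : ℕ} (hn : 2 ≤ n) (hs : 5 ≤ s) (ω : Edge → Bool) (w : ℕ × ℕ → ℕ)
    (hw : ∀ v : ℕ × ℕ, 1 ≤ w v → ∃ b, ω (v, b) = false) {t : ℝ}
    (hgood : ∀ l, BadS n s l → t ≤ l.length → ¬ ∀ v, l.count v ≤ w (v.1, flip n v.2))
    (hT : t ≤ Pool.Agent.W533.LP.T (fun i j => w (i, flip n j)) n n) :
    s * V n ω + (s - 4) * Pool.Agent.W533.LP.T (fun i j => w (i, flip n j)) n n ≤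
      s * (2 * (n - 1) + 4) := by
  classical
  set Tn := Pool.Agent.W533.LP.T (fun i j => w (i, flip n j)) n n with hTn
  obtain ⟨l, hlT, hln, hlp, hlc⟩ := opt_list (fun i j => w (i, flip n j)) n n
  rw [← hTn] at hlT
  have hnx : nv 0 (l.map sx) = 0 := by
    refine nv_sorted _ 0 (fun _ _ => Nat.zero_le _) ?_
    rw [List.pairwise_map]
    exact hlp.imp fun {a b} h => Nat.add_le_add_right h.1 1
  have hny : nv 0 (l.map sy) = 0 := by
    refine nv_sorted _ 0 (fun _ _ => Nat.zero_le _) ?_
    rw [List.pairwise_map]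
    exact hlp.imp fun {a b} h => Nat.add_le_add_right h.2 1
  have hnv : nv 0 (l.map sx) + nv 0 (l.map sy) ≤ l.length := by
    rw [hnx, hny]
    exact Nat.zero_le _
  have hnb : ¬ BadS n s l := by
    intro hb
    refine hgood l hb ?_ (fun v => hlc v)
    rw [hlT]
    exact hT
  have hnb2 : s * sm (s - 1) 0 (l.map sx) < l.length ∧
      s * sm (s - 1) 0 (l.map sy) < l.length := by
    constructor
    · by_contra hcon
      exact hnb ⟨hln, hnv, Or.inl (not_lt.1 hcon)⟩
    · by_contra hcon
      exact hnb ⟨hln, hnv, Or.inr (not_lt.1 hcon)⟩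
  have h3 := many_recs sx sy l (by omega : 1 ≤ s) hnv hnb2.1 hnb2.2
  set r := recs sx sy 0 0 l with hr
  have hsub : r.Sublist l := recs_sublist sx sy l 0 0
  have hpw : r.Pairwise fun a b => sx a < sx b ∧ sy a < sy b := recs_pairwise sx sy l 0 0
  -- closed edges
  have hcl : ∀ v ∈ r, ∃ b, ω ((v.1, flip n v.2), b) = false := by
    intro v hv
    apply hw
    have h4 : 0 < l.count v := List.count_pos_iff.2 (hsub.subset hv)
    have h5 := hlc v
    omega
  choose! b hb using hcl
  set P : ℕ × ℕ → Bool := fun v => decide (1 ≤ v.1 ∧ v.1 + 2 ≤ n ∧ 1 ≤ v.2 ∧ v.2 + 2 ≤ n) with hP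
  set g : ℕ × ℕ → Edge := fun v => ((v.1, flip n v.2), b v) with hg
  set C : Finset Edge := ((r.filter P).map g).toFinset with hC
  have hrn : ∀ v ∈ r, v.1 < n ∧ v.2 < n := fun v hv => hln v (hsub.subset hv)
  have hlen : r.length ≤ (r.filter P).length + 4 := by
    have e0 := List.length_eq_countP_add_countP P (l := r)
    have e1 : r.countP (fun v => decide (v.1 = 0)) ≤ 1 :=
      count_le_one_of_lt (fun v => v.1) r (hpw.imp fun {a b} h => by
        have := h.1
        unfold sx at this
        omega) 0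
    have e2 : r.countP (fun v => decide (v.1 = n - 1)) ≤ 1 :=
      count_le_one_of_lt (fun v => v.1) r (hpw.imp fun {a b} h => by
        have := h.1
        unfold sx at this
        omega) (n - 1)
    have e3 : r.countP (fun v => decide (v.2 = 0)) ≤ 1 :=
      count_le_one_of_lt (fun v => v.2) r (hpw.imp fun {a b} h => by
        have := h.2
        unfold sy at this
        omega) 0
    have e4 : r.countP (fun v => decide (v.2 = n - 1)) ≤ 1 :=
      count_le_one_of_lt (fun v => v.2) r (hpw.imp fun {a b} h => by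
        have := h.2
        unfold sy at this
        omega) (n - 1)
    have e5 : r.countP (fun v => decide (¬ P v = true)) ≤
        r.countP (fun v => decide (v.1 = 0)) + r.countP (fun v => decide (v.1 = n - 1)) +
        r.countP (fun v => decide (v.2 = 0)) + r.countP (fun v => decide (v.2 = n - 1)) := by
      have : ∀ L : List (ℕ × ℕ), (∀ v ∈ L, v.1 < n ∧ v.2 < n) →
          L.countP (fun v => decide (¬ P v = true)) ≤
          L.countP (fun v => decide (v.1 = 0)) + L.countP (fun v => decide (v.1 = n - 1)) +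
          L.countP (fun v => decide (v.2 = 0)) + L.countP (fun v => decide (v.2 = n - 1)) := by
        intro L
        induction L with
        | nil => intro _; simp
        | cons a L ih =>
          intro hL
          have h5 := ih fun v hv => hL v (List.mem_cons_of_mem _ hv)
          have h6 := hL a List.mem_cons_self
          simp only [List.countP_cons, decide_eq_true_eq, hP] at h5 ⊢
          split_ifs <;> omega
      exact this r hrn
    rw [← List.countP_eq_length_filter]
    omega
  have hginj : Function.Injective g := by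
    intro a c hac
    simp only [hg, Prod.mk.injEq] at hac
    have h4 := congrArg (flip n) hac.1.2
    rw [flip_flip, flip_flip] at h4
    exact Prod.ext hac.1.1 h4
  have hrnd : r.Nodup := hpw.imp fun {a b} h hab => by
    rw [hab] at h
    exact lt_irrefl _ h.1
  have hCcard : #C = (r.filter P).length := by
    rw [hC, List.toFinset_card_of_nodup ((hrnd.filter _).map hginj), List.length_map]
  have hCb := antichain_bound hn ω C ?_ ?_
  · have h5 : (s - 4) * l.length + 4 * l.length = s * l.length := by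
      rw [← Nat.add_mul]
      congr 1
      omega
    rw [hlT] at h5 h3
    have h6 : V n ω + r.length ≤ 2 * (n - 1) + 4 := by omega
    have h7 := Nat.mul_le_mul_left s h6
    rw [Nat.mul_add] at h7
    omega
  · intro e he
    rw [hC, List.mem_toFinset, List.mem_map] at he
    obtain ⟨v, hv, rfl⟩ := he
    rw [List.mem_filter] at hv
    have h4 := hv.2
    simp only [hP, decide_eq_true_eq] at h4
    refine ⟨hb v hv.1, h4.1, h4.2.1, ?_, ?_⟩
    · simp only [hg, flip]
      split_ifs <;> omega
    · simp only [hg, flip]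
      split_ifs <;> omega
  · intro e he e' he' h5 h6
    rw [hC, List.mem_toFinset, List.mem_map] at he he'
    obtain ⟨v, hv, rfl⟩ := he
    obtain ⟨v', hv', rfl⟩ := he'
    rw [List.mem_filter] at hv hv'
    by_contra hne
    have hvne : v ≠ v' := fun h => hne (by rw [h])
    have h7 := hrn v hv.1
    have h8 := hrn v' hv'.1
    simp only [hg, flip, if_pos h7.2, if_pos h8.2] at h5 h6
    have h9 := pw_or r hpw v hv.1 v' hv'.1 hvne
    unfold sx sy at h9
    omega

end Q292.OPF
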