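import Mathlib
import Pool.Agent.W56.LP.GT
import Pool.Agent.W85.LP.VB
import Pool.Agent.W179.LP.VarId
import Pool.Agent.W634.LP.Burke
import Pool.Agent.W346.LP.SW
import Pool.Agent.W654.LP.Exit
import Pool.Agent.W925.LP.T1
import Pool.Agent.W692.LP.A
import Pool.Agent.W370.LP.Paths
import Pool.Agent.W589.LP.D1
import Pool.Agent.W589.LP.D2
import Pool.Agent.W335.LP.Cpl
import Pool.Agent.W990.LP.Mom
import Pool.Agent.W166.LP.Kol
import Pool.Agent.W576.LP.VarCmp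

/-!
# The law of large numbers for geometric last passage percolation, from the library
-/

namespace Q292.OPF

open Pool.Agent
open MeasureTheory ProbabilityTheory Filter Topology Pool.Agent.W533.LP

theorem lib : PVarId ∧ PVB ∧ PGT := by
  have burke : PBurke := W634.LP.pBurke W692.LP.pBlock
  have mom : PMom := W990.LP.Mom.pMom
  have varId : PVarId := W179.LP.pVarId W692.LP.aMeas W692.LP.aOps W589.LP.dTransp W589.LP.dSlope mom burke
  have varCmp : PVarCmp := W576.LP.pVarCmp varId W335.LP.pCouple W692.LP.aLaw W589.LP.dSlopeMono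
    W589.LP.dTransp W692.LP.aMeas mom
  have t1 : PT1 := W925.LP.pT1 varId varCmp W335.LP.pCouple W692.LP.aLaw mom W589.LP.dIncl W692.LP.aMeas
  have vb : PVB := W85.LP.VB.pVB t1 varId mom
  have sw : PSW := W346.LP.pSW vb varId W335.LP.pCouple W692.LP.aLaw W589.LP.dMax W589.LP.dMono
    W589.LP.dTransp W692.LP.aMeas W692.LP.aOps
  have ext : PExit := W654.LP.pExit t1 vb W589.LP.dTransp W692.LP.aOps
  have kol : PKol := W166.LP.Kol.pKol mom
  have gt : PGT := W56.LP.GT.pGT ext sw burke kol mom W692.LP.pTransfer W692.LP.aSys W692.LP.aOps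
    W692.LP.aMeas W589.LP.dCut W589.LP.dSlope W370.LP.dExit W370.LP.dRot W589.LP.dSand
    W589.LP.dTransp
  exact ⟨varId, vb, gt⟩

/-- the constant -/
noncomputable def cst (q : ℝ) : ℝ := 2 * mean (Real.sqrt q)

theorem T_le_Gr {Ω : Type} (I J : ℕ → Ω → ℕ) (W : ℕ → ℕ → Ω → ℕ) (m n : ℕ) (ω : Ω) :
    Tr W m n ω ≤ Gr I J W m n ω := by
  unfold Tr Gr
  refine W589.LP.dMono _ _ _ _ _ _ (fun k => ?_) (fun k => ?_) (fun i j => le_rfl) m n
  · unfold ps
    exact Finset.sum_le_sum fun i _ => Nat.zero_le _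
  · unfold ps
    exact Finset.sum_le_sum fun i _ => Nat.zero_le _

/-- convergence for one stationary system -/
theorem lln_sys {q : ℝ} (h0 : 0 < q) (h1 : q < 1) {δ η : ℝ} (hδ : 0 < δ) (hη : 0 < η) :
    ∃ n0 : ℕ, ∀ n ≥ n0, ∀ {Ω : Type} [MeasurableSpace Ω] (μ : Measure Ω)
      (I J : ℕ → Ω → ℕ) (W : ℕ → ℕ → Ω → ℕ), Sys0 μ q (Real.sqrt q) I J W →
      μ.real {ω | δ * n < |(Tr W n n ω : ℝ) - cst q * n|} ≤ η := by
  obtain ⟨hV, hB, hG⟩ := lib
  have hq0 : 0 < Real.sqrt q := Real.sqrt_pos.2 h0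
  have hqq : Real.sqrt q * Real.sqrt q = q := Real.mul_self_sqrt h0.le
  have hq1 : Real.sqrt q < 1 := by
    rw [Real.sqrt_lt' one_pos]
    linarith
  have hqa : q < Real.sqrt q := by nlinarith
  have hdiv : q / Real.sqrt q = Real.sqrt q := by
    rw [div_eq_iff hq0.ne']
    exact hqq.symm
  obtain ⟨C1, hC1, hB⟩ := hB q h0 h1
  obtain ⟨C2, hC2, hG⟩ := hG q h0 h1
  -- the constant `b`
  obtain ⟨b, hb1, hb2⟩ : ∃ b : ℝ, 1 ≤ b ∧ C2 / b ^ 3 ≤ η / 2 := by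
    refine ⟨max 1 (2 * C2 / η), le_max_left _ _, ?_⟩
    set b := max 1 (2 * C2 / η) with hb
    have hb1 : 1 ≤ b := le_max_left _ _
    have hb2 : 2 * C2 / η ≤ b := le_max_right _ _
    rw [div_le_iff₀ (by positivity)]
    rw [div_le_iff₀ hη] at hb2
    have hb3 : b ≤ b ^ 3 := by
      nlinarith [mul_nonneg (sub_nonneg.2 hb1) (by linarith : (0 : ℝ) ≤ b)]
    nlinarith
  -- `n` large
  have ht13 : Tendsto (fun n : ℕ => (n : ℝ) ^ (1 / 3 : ℝ)) atTop atTop :=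
    (tendsto_rpow_atTop (by norm_num)).comp tendsto_natCast_atTop_atTop
  have e1 := ht13.eventually_ge_atTop (C2 * b)
  have ht23 : Tendsto (fun n : ℕ => (n : ℝ) ^ (2 / 3 : ℝ)) atTop atTop :=
    (tendsto_rpow_atTop (by norm_num)).comp tendsto_natCast_atTop_atTop
  have e2 := ht23.eventually_ge_atTop (C2 * b ^ 2 / (δ / 4))
  have e3 := ht23.eventually_ge_atTop (16 * C1 / (δ ^ 2 * (η / 2)))
  obtain ⟨n0, hn0⟩ := eventually_atTop.1 ((e1.and (e2.and e3)).and (eventually_ge_atTop 1))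
  refine ⟨n0, fun n hn Ω _ μ I J W hS => ?_⟩
  obtain ⟨⟨hn1, hn2, hn3⟩, hn4⟩ := hn0 n hn
  have hnpos : (0 : ℝ) < n := by exact_mod_cast hn4
  have hprob : IsProbabilityMeasure μ := hS.prob
  have hP := hV μ q (Real.sqrt q) I J W h0 hqa hq1 hS n n
  have hmem : MemLp (fun ω => (Gr I J W n n ω : ℝ)) 2 μ := hP.1.mono_exponent (by norm_num)
  have hmean : ∫ ω, (Gr I J W n n ω : ℝ) ∂μ = cst q * n := by
    rw [hP.2.1, hdiv]
    unfold cst
    ring
  have hdd : |Real.sqrt q - Real.sqrt q| ≤ 2 * dd q := by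
    rw [sub_self, abs_zero]
    unfold dd
    have : 0 ≤ min (Real.sqrt q - q) (1 - Real.sqrt q) := le_min (by linarith) (by linarith)
    linarith
  have hvar := hB μ (Real.sqrt q) I J W hdd hS n n hn4
    (by omega) (by omega)
  have hn23 : (n : ℝ) ^ (2 / 3 : ℝ) * (n : ℝ) ^ (1 / 3 : ℝ) = n := by
    rw [← Real.rpow_add hnpos]
    norm_num
  have hn3' : (n : ℝ) ^ (2 / 3 : ℝ) ≤ n := by
    have : (1 : ℝ) ≤ (n : ℝ) ^ (1 / 3 : ℝ) := by
      apply Real.one_le_rpow (by exact_mod_cast hn4) (by norm_num)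
    have h5 : 0 < (n : ℝ) ^ (2 / 3 : ℝ) := by positivity
    nlinarith
  simp only [sub_self, abs_zero, mul_zero, add_zero] at hvar
  have hcheb := meas_ge_le_variance_div_sq hmem (c := δ / 2 * n) (by positivity)
  rw [hmean] at hcheb
  have hcheb' : μ.real {ω | δ / 2 * n ≤ |(Gr I J W n n ω : ℝ) - cst q * n|} ≤ η / 2 := by
    refine (ENNReal.toReal_le_of_le_ofReal ?_ hcheb).trans ?_
    · exact div_nonneg (variance_nonneg _ _) (by positivity)
    · rw [div_le_iff₀ (by positivity)]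
      refine hvar.trans ?_
      rw [div_le_iff₀ (by positivity)] at hn3
      have h6 : (n : ℝ) ^ (2 / 3 : ℝ) * (n : ℝ) ^ (2 / 3 : ℝ) ≤ n * n :=
        mul_le_mul hn3' hn3' (by positivity) (by positivity)
      have h7 : 16 * C1 * (n : ℝ) ^ (2 / 3 : ℝ) ≤
          (n : ℝ) ^ (2 / 3 : ℝ) * (δ ^ 2 * (η / 2)) * (n : ℝ) ^ (2 / 3 : ℝ) :=
        mul_le_mul_of_nonneg_right hn3 (by positivity)
      have h8 : (n : ℝ) ^ (2 / 3 : ℝ) * (δ ^ 2 * (η / 2)) * (n : ℝ) ^ (2 / 3 : ℝ) ≤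
          n * n * (δ ^ 2 * (η / 2)) := by
        calc (n : ℝ) ^ (2 / 3 : ℝ) * (δ ^ 2 * (η / 2)) * (n : ℝ) ^ (2 / 3 : ℝ)
            = ((n : ℝ) ^ (2 / 3 : ℝ) * (n : ℝ) ^ (2 / 3 : ℝ)) * (δ ^ 2 * (η / 2)) := by ring
          _ ≤ _ := mul_le_mul_of_nonneg_right h6 (by positivity)
      nlinarith
  have hpgt := hG μ (Real.sqrt q) b I J W n n hb1 hn1 hn4 (by omega) (by omega)
    (by simp; linarith) (by simp; positivity) hS
  have hsmall : C2 * b ^ 2 * (n : ℝ) ^ (1 / 3 : ℝ) ≤ δ / 4 * n := by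
    rw [div_le_iff₀ (by positivity)] at hn2
    calc C2 * b ^ 2 * (n : ℝ) ^ (1 / 3 : ℝ) ≤
        (n : ℝ) ^ (2 / 3 : ℝ) * (δ / 4) * (n : ℝ) ^ (1 / 3 : ℝ) :=
          mul_le_mul_of_nonneg_right hn2 (by positivity)
      _ = δ / 4 * ((n : ℝ) ^ (2 / 3 : ℝ) * (n : ℝ) ^ (1 / 3 : ℝ)) := by ring
      _ = δ / 4 * n := by rw [hn23]
  have hsub : {ω | δ * n < |(Tr W n n ω : ℝ) - cst q * n|} ⊆
      {ω | δ / 2 * n ≤ |(Gr I J W n n ω : ℝ) - cst q * n|} ∪
      {ω | (Tr W n n ω : ℝ) + C2 * b ^ 2 * (n : ℝ) ^ (1 / 3 : ℝ) ≤ Gr I J W n n ω} := by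
    intro ω hω
    by_contra hcon
    have h9 : ¬ (δ / 2 * n ≤ |(Gr I J W n n ω : ℝ) - cst q * n|) := fun h => hcon (Or.inl h)
    have h10 : ¬ ((Tr W n n ω : ℝ) + C2 * b ^ 2 * (n : ℝ) ^ (1 / 3 : ℝ) ≤ Gr I J W n n ω) :=
      fun h => hcon (Or.inr h)
    push Not at h9 h10
    have hω' : δ * n < |(Tr W n n ω : ℝ) - cst q * n| := hω
    have h11 : (Tr W n n ω : ℝ) ≤ Gr I J W n n ω := by exact_mod_cast T_le_Gr I J W n n ω
    rw [abs_lt] at h9
    rw [lt_abs] at hω'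
    have h12 : 0 < δ * n := by positivity
    rcases hω' with h | h <;> linarith
  refine (measureReal_mono hsub (measure_ne_top _ _)).trans ((measureReal_union_le _ _).trans ?_)
  linarith

/-- **Law of large numbers** for geometric last passage percolation. -/
theorem lln {q : ℝ} (h0 : 0 < q) (h1 : q < 1) {δ η : ℝ} (hδ : 0 < δ) (hη : 0 < η) :
    ∃ n0 : ℕ, ∀ n ≥ n0, ∀ {Ω : Type} [MeasurableSpace Ω] (μ : Measure Ω)
      (W : ℕ → ℕ → Ω → ℕ), Bulk μ q W →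
      μ.real {ω | δ * n < |(Tr W n n ω : ℝ) - cst q * n|} ≤ η := by
  obtain ⟨n0, hn0⟩ := lln_sys h0 h1 hδ hη
  refine ⟨n0, fun n hn Ω _ μ W hW => ?_⟩
  have hq0 : 0 < Real.sqrt q := Real.sqrt_pos.2 h0
  have hqq : Real.sqrt q * Real.sqrt q = q := Real.mul_self_sqrt h0.le
  have hq1 : Real.sqrt q < 1 := by
    rw [Real.sqrt_lt' one_pos]
    linarith
  have hqa : q < Real.sqrt q := by nlinarith
  obtain ⟨Ω', hm, μ', I, J, W', X, hS⟩ := W692.LP.aSys (κ := Empty) q (Real.sqrt q)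
    (fun _ => 0) h0 hqa hq1 (fun k => k.elim)
  obtain ⟨hS0, hBk⟩ := (W692.LP.aOps μ' q).1 _ _ _ _ _ _ hS
  have hmeas : Measurable fun w : ℕ → ℕ → ℕ => (Pool.Agent.W533.LP.T w n n : ℝ) := by
    have h2 := W692.LP.aMeas.1 n n
    have h3 : Measurable fun w : ℕ → ℕ → ℕ => (zero, zero, w) :=
      measurable_const.prodMk (measurable_const.prodMk measurable_id)
    exact (measurable_of_countable (fun k : ℕ => (k : ℝ))).comp (h2.comp h3)
  have hid := W692.LP.aLawB μ μ' q W W' hW hBk _ hmeas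
  have hset : MeasurableSet {t : ℝ | δ * n < |t - cst q * n|} :=
    measurableSet_lt measurable_const (by fun_prop)
  have h4 := hid.measure_mem_eq hset
  have h5 := hn0 n hn μ' I J W' hS0
  have h6 : μ.real {ω | δ * n < |(Tr W n n ω : ℝ) - cst q * n|} =
      μ'.real {ω | δ * n < |(Tr W' n n ω : ℝ) - cst q * n|} :=
    congrArg ENNReal.toReal h4
  rw [h6]
  exact h5

end Q292.OPF
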