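import Mathlib
import Pool.Agent.Q292.OPF.Bound
import Pool.Agent.Q292.OPF.Det2
import Pool.Agent.Q292.OPF.Lln

/-!
# The asymptotics of the flow
-/

namespace Q292.OPF

open MeasureTheory ProbabilityTheory Filter Topology

/-- the flow depends only on the edges of the box -/
theorem V_congr {n : ℕ} {ω ω' : Edge → Bool} (h : ∀ e ∈ boxE n, ω e = ω' e) : V n ω = V n ω' := by
  have key : ∀ l : List Edge, IsPath n ω l ↔ IsPath n ω' l := by
    intro l
    unfold IsPath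
    have h1 : (∀ e ∈ l, tail e ∈ box n ∧ head e ∈ box n ∧ ω e = true) ↔
        (∀ e ∈ l, tail e ∈ box n ∧ head e ∈ box n ∧ ω' e = true) := by
      refine forall₂_congr fun e he => ?_
      constructor
      · rintro ⟨h2, h3, h4⟩
        exact ⟨h2, h3, by rw [← h e (mem_boxE.2 ⟨h2, h3⟩)]; exact h4⟩
      · rintro ⟨h2, h3, h4⟩
        exact ⟨h2, h3, by rw [h e (mem_boxE.2 ⟨h2, h3⟩)]; exact h4⟩
    rw [h1]
  unfold V
  simp only [key]

theorem measurable_V (n : ℕ) : Measurable (V n) := by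
  classical
  have h1 : V n = (fun g : boxE n → Bool => V n fun e => if h : e ∈ boxE n then g ⟨e, h⟩ else false) ∘
      (fun ω : Edge → Bool => fun e : boxE n => ω e) := by
    funext ω
    refine V_congr fun e he => ?_
    simp [he]
  rw [h1]
  exact (measurable_of_countable _).comp (by fun_prop)

/-- the event for the last passage time -/
def B3 (q d : ℝ) (n : ℕ) : Set Om :=
  {ω | d * n < |(Pool.Agent.W533.LP.Tr (fun i j ω => W ω (i, flip n j)) n n ω : ℝ) - cst q * n|}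

theorem B3_tendsto {p : unitInterval} (hp0 : 0 < (p : ℝ)) (hp1 : (p : ℝ) < 1) {d : ℝ} (hd : 0 < d) :
    Tendsto (fun n => (mu p).real (B3 (1 - (p : ℝ) * p) d n)) atTop (𝓝 0) := by
  rw [Metric.tendsto_atTop]
  intro η hη
  obtain ⟨n0, hn0⟩ := lln (q := 1 - (p : ℝ) * p) (by nlinarith) (by nlinarith) hd (half_pos hη)
  refine ⟨n0, fun n hn => ?_⟩
  have h1 := hn0 n hn (mu p) (fun i j ω => W ω (i, flip n j)) (bulk p hp0 n)
  rw [Real.dist_eq, sub_zero, abs_of_nonneg measureReal_nonneg]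
  have h2 : (mu p).real (B3 (1 - (p : ℝ) * p) d n) ≤ η / 2 := h1
  linarith

theorem half_pow_tendsto {h : ℝ} (h0 : 0 < h) :
    Tendsto (fun n : ℕ => 4 * (1 / 2 : ℝ) ^ ⌈h * n⌉₊) atTop (𝓝 0) := by
  have h1 : Tendsto (fun n : ℕ => ⌈h * n⌉₊) atTop atTop := by
    refine tendsto_nat_ceil_atTop.comp ?_
    exact (tendsto_natCast_atTop_atTop (R := ℝ)).const_mul_atTop h0
  have h2 := (tendsto_pow_atTop_nhds_zero_of_lt_one (r := (1 / 2 : ℝ)) (by norm_num)
    (by norm_num)).comp h1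
  have h3 := h2.const_mul 4
  rw [mul_zero] at h3
  exact h3

/-- the inequality in the good event -/
theorem good_ineq {s n v t : ℕ} {a d ε u : ℝ} (hs : 5 ≤ s) (hn : 2 ≤ n) (hε : 0 < ε)
    (hε1 : ε ≤ 1 / 10) (hu : 0 < u) (hs1 : (s : ℝ) ≤ (1 + ε) * (s - 4))
    (hs2 : (1 - ε) * s ≤ s - 4)
    (ha : |a / 2 - u| ≤ ε * u) (hd : d = 2 * ε * u) (hnu : 1 ≤ ε * u * n)
    (ht : |(t : ℝ) - a * n| ≤ d * n)
    (h1 : (s - 4) * (2 * (n - 1)) ≤ (s - 4) * v + s * t)
    (h2 : s * v + (s - 4) * t ≤ s * (2 * (n - 1) + 4)) :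
    |(1 - (v : ℝ) / (2 * n)) / u - 1| ≤ 6 * ε := by
  have hn0 : (0 : ℝ) < n := by
    have : 0 < n := by omega
    exact_mod_cast this
  have hs0 : (0 : ℝ) < s - 4 := by
    have : (5 : ℝ) ≤ s := by exact_mod_cast hs
    linarith
  have hs00 : (0 : ℝ) < s := by linarith
  have e1 : ((s : ℝ) - 4) * (2 * (n - 1)) ≤ (s - 4) * v + s * t := by
    have : (((s - 4) * (2 * (n - 1)) : ℕ) : ℝ) ≤ (((s - 4) * v + s * t : ℕ) : ℝ) := by
      exact_mod_cast h1
    push_cast [Nat.cast_sub (show 4 ≤ s by omega), Nat.cast_sub (show 1 ≤ n by omega)] at this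
    exact this
  have e2 : (s : ℝ) * v + (s - 4) * t ≤ s * (2 * (n - 1) + 4) := by
    have : ((s * v + (s - 4) * t : ℕ) : ℝ) ≤ ((s * (2 * (n - 1) + 4) : ℕ) : ℝ) := by
      exact_mod_cast h2
    push_cast [Nat.cast_sub (show 4 ≤ s by omega), Nat.cast_sub (show 1 ≤ n by omega)] at this
    exact this
  have ht0 : (0 : ℝ) ≤ t := Nat.cast_nonneg t
  -- the loss
  have f1 : 2 * (n : ℝ) - v ≤ 2 + (1 + ε) * t := by
    have : ((s : ℝ) - 4) * (2 * n - v) ≤ (s - 4) * (2 + (1 + ε) * t) := by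
      have h3 : (s : ℝ) * t ≤ (1 + ε) * (s - 4) * t := mul_le_mul_of_nonneg_right hs1 ht0
      nlinarith
    exact le_of_mul_le_mul_left this hs0
  have f2 : -2 + (1 - ε) * t ≤ 2 * (n : ℝ) - v := by
    have : (s : ℝ) * (-2 + (1 - ε) * t) ≤ s * (2 * (n : ℝ) - v) := by
      have h3 : (1 - ε) * s * t ≤ (s - 4) * t := mul_le_mul_of_nonneg_right hs2 ht0
      nlinarith
    exact le_of_mul_le_mul_left this hs00
  rw [abs_le] at ha ht ⊢
  subst hd
  -- bounds for t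
  have g1 : (t : ℝ) ≤ 2 * (1 + 2 * ε) * u * n := by
    have : a * n ≤ 2 * (1 + ε) * u * n := mul_le_mul_of_nonneg_right (by linarith) hn0.le
    nlinarith
  have g2 : 2 * (1 - 2 * ε) * u * n ≤ t := by
    have : 2 * (1 - ε) * u * n ≤ a * n := mul_le_mul_of_nonneg_right (by linarith) hn0.le
    nlinarith
  have hun : 0 < u * n := by positivity
  have hval : (1 - (v : ℝ) / (2 * n)) / u = (2 * n - v) / (2 * (u * n)) := by
    field_simp
  rw [hval]
  constructor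
  · have : (1 - 6 * ε) ≤ (2 * (n : ℝ) - v) / (2 * (u * n)) := by
      rw [le_div_iff₀ (by positivity)]
      have h3 : (1 - ε) * (2 * (1 - 2 * ε) * u * n) ≤ (1 - ε) * t :=
        mul_le_mul_of_nonneg_left g2 (by linarith)
      nlinarith [mul_pos hε hun, mul_pos hε (mul_pos hε hun)]
    linarith
  · have : (2 * (n : ℝ) - v) / (2 * (u * n)) ≤ 1 + 6 * ε := by
      rw [div_le_iff₀ (by positivity)]
      have h3 : (1 + ε) * t ≤ (1 + ε) * (2 * (1 + 2 * ε) * u * n) :=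
        mul_le_mul_of_nonneg_left g1 (by linarith)
      have h4 : ε * (ε * (u * n)) ≤ 1 / 10 * (ε * (u * n)) :=
        mul_le_mul_of_nonneg_right hε1 (by positivity)
      nlinarith [mul_pos hε hun, mul_pos hε (mul_pos hε hun)]
    linarith

/-- convergence in probability -/
theorem core {p : unitInterval} {s : ℕ} {h k ε : ℝ} (hN : Near p s h k) (hp0 : 0 < (p : ℝ))
    (hε : 0 < ε) (hε1 : ε ≤ 1 / 10) (hs1 : (s : ℝ) ≤ (1 + ε) * (s - 4))
    (hs2 : (1 - ε) * s ≤ s - 4) {u : ℝ} (hu : u = Real.sqrt 2 * h)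
    (hb : |cst (1 - (p : ℝ) * p) / 2 - u| ≤ ε * u) :
    Tendsto (fun n : ℕ => (perc p).real {ω | 6 * ε < |(1 - (V n ω : ℝ) / (2 * n)) / u - 1|})
      atTop (𝓝 0) := by
  have h0 := hN.h0
  have hp1 : (p : ℝ) < 1 := by
    have := hN.hp
    nlinarith
  have h2 : (14 / 10 : ℝ) ≤ Real.sqrt 2 := by
    rw [Real.le_sqrt (by norm_num) (by norm_num)]
    norm_num
  have hu0 : 0 < u := by
    rw [hu]
    positivity
  have hu1 : 14 / 10 * h ≤ u := by
    rw [hu]
    exact mul_le_mul_of_nonneg_right h2 h0.le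
  set d := 2 * ε * u with hd
  have hd0 : 0 < d := by positivity
  have l3 := B3_tendsto hp0 hp1 hd0
  have l1 := half_pow_tendsto h0
  have lsum := (l1.add l1).add l3
  rw [add_zero, add_zero] at lsum
  have hev : ∀ᶠ n : ℕ in atTop, 2 ≤ n ∧ 1 ≤ ε * u * n := by
    refine (eventually_ge_atTop 2).and ?_
    exact ((tendsto_natCast_atTop_atTop (R := ℝ)).const_mul_atTop
      (by positivity : 0 < ε * u)).eventually_ge_atTop 1
  refine squeeze_zero' (Eventually.of_forall fun n => measureReal_nonneg) ?_ lsum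
  filter_upwards [hev] with n hn
  obtain ⟨hn2, hnu⟩ := hn
  set E1 : Set (Edge → Bool) :=
    {ω | ∃ l : List Edge, BadE n s l ∧ h * n ≤ l.length ∧ ∀ e ∈ l, ω e = false} with hE1
  set E2 : Set Om := {ω | ∃ l : List (ℕ × ℕ), BadS n s l ∧ h * n ≤ l.length ∧
      ∀ v, l.count v ≤ W ω (v.1, flip n v.2)} with hE2
  have b1 : (mu p).real (th ⁻¹' E1) ≤ 4 * (1 / 2 : ℝ) ^ ⌈h * n⌉₊ := by
    refine le_trans ?_ (edges_unlikely hN n)
    have := Measure.le_map_apply (μ := mu p) measurable_th.aemeasurable E1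
    rw [map_th] at this
    exact ENNReal.toReal_mono (measure_ne_top _ _) this
  have b2 : (mu p).real E2 ≤ 4 * (1 / 2 : ℝ) ^ ⌈h * n⌉₊ := sites_unlikely hN hp0 n
  have hmeas : MeasurableSet {ω : Edge → Bool | 6 * ε < |(1 - (V n ω : ℝ) / (2 * n)) / u - 1|} := by
    have hV : Measurable fun ω : Edge → Bool => (V n ω : ℝ) :=
      (measurable_of_countable (fun m : ℕ => (m : ℝ))).comp (measurable_V n)
    exact measurableSet_lt measurable_const (by fun_prop)
  have htr : (perc p).real {ω | 6 * ε < |(1 - (V n ω : ℝ) / (2 * n)) / u - 1|} =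
      (mu p).real (th ⁻¹' {ω | 6 * ε < |(1 - (V n ω : ℝ) / (2 * n)) / u - 1|}) := by
    rw [← map_th, map_measureReal_apply measurable_th hmeas]
  rw [htr]
  have hsub : th ⁻¹' {ω | 6 * ε < |(1 - (V n ω : ℝ) / (2 * n)) / u - 1|} ⊆
      (th ⁻¹' E1 ∪ E2) ∪ B3 (1 - (p : ℝ) * p) d n := by
    intro ω hω
    by_contra hcon
    simp only [Set.mem_union, not_or] at hcon
    obtain ⟨⟨c1, c2⟩, c3⟩ := hcon
    have c1' : ∀ l, BadE n s l → h * n ≤ l.length → ¬ ∀ e ∈ l, th ω e = false := by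
      intro l hl1 hl2 hl3
      exact c1 ⟨l, hl1, hl2, hl3⟩
    have c2' : ∀ l, BadS n s l → h * n ≤ l.length →
        ¬ ∀ v, l.count v ≤ W ω (v.1, flip n v.2) := by
      intro l hl1 hl2 hl3
      exact c2 ⟨l, hl1, hl2, hl3⟩
    have c3' : |((Pool.Agent.W533.LP.T (fun i j => W ω (i, flip n j)) n n : ℕ) : ℝ) -
        cst (1 - (p : ℝ) * p) * n| ≤ d * n := not_lt.1 c3
    have hn0 : (0 : ℝ) < n := by
      have : 0 < n := by omega
      exact_mod_cast this
    have hT : h * n ≤ ((Pool.Agent.W533.LP.T (fun i j => W ω (i, flip n j)) n n : ℕ) : ℝ) := by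
      rw [abs_le] at c3' hb
      have h3 : 2 * (1 - 2 * ε) * u ≤ cst (1 - (p : ℝ) * p) - d := by
        rw [hd]
        linarith
      have h4 : h ≤ 2 * (1 - 2 * ε) * u := by nlinarith
      have h5 : h * n ≤ (cst (1 - (p : ℝ) * p) - d) * n :=
        mul_le_mul_of_nonneg_right (by linarith) hn0.le
      linarith
    have i1 := flow_ge hn2 hN.hs (th ω) (W ω) (fun e he => one_le_W ω e he) c1' hT
    have i2 := flow_le hn2 hN.hs (th ω) (W ω) (fun v hv => exists_closed ω v hv) c2' hT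
    have i3 := good_ineq hN.hs hn2 hε hε1 hu0 hs1 hs2 hb hd hnu c3' i1 i2
    exact absurd hω (not_lt.2 i3)
  calc (mu p).real (th ⁻¹' {ω | 6 * ε < |(1 - (V n ω : ℝ) / (2 * n)) / u - 1|})
      ≤ (mu p).real ((th ⁻¹' E1 ∪ E2) ∪ B3 (1 - (p : ℝ) * p) d n) :=
        measureReal_mono hsub (measure_ne_top _ _)
    _ ≤ (mu p).real (th ⁻¹' E1 ∪ E2) + (mu p).real (B3 (1 - (p : ℝ) * p) d n) :=
        measureReal_union_le _ _
    _ ≤ ((mu p).real (th ⁻¹' E1) + (mu p).real E2) + (mu p).real (B3 (1 - (p : ℝ) * p) d n) :=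
        add_le_add_left (measureReal_union_le _ _) _
    _ ≤ (4 * (1 / 2 : ℝ) ^ ⌈h * n⌉₊ + 4 * (1 / 2 : ℝ) ^ ⌈h * n⌉₊) +
        (mu p).real (B3 (1 - (p : ℝ) * p) d n) := by linarith

end Q292.OPF
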