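import Mathlib
import Pool.Agent.Q292.OPF.Fin

/-!
# The main theorems
-/

namespace Q292.OPF

open MeasureTheory ProbabilityTheory Filter Topology

theorem ratio_tendsto : Tendsto (fun p : ℝ => cst (1 - p * p) / 2 / (Real.sqrt 2 * Real.sqrt (1 - p)))
    (𝓝[<] 1) (𝓝 1) := by
  have h1 : Tendsto (fun p : ℝ => Real.sqrt ((1 + p) / 2) / (1 - Real.sqrt (1 - p * p)))
      (𝓝 1) (𝓝 1) := by
    have h2 : ContinuousAt (fun p : ℝ => Real.sqrt ((1 + p) / 2) / (1 - Real.sqrt (1 - p * p))) 1 := by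
      refine ContinuousAt.div (by fun_prop) (by fun_prop) ?_
      norm_num
    have h3 := h2.tendsto
    have h4 : Real.sqrt ((1 + 1) / 2) / (1 - Real.sqrt (1 - 1 * 1)) = 1 := by norm_num
    rw [h4] at h3
    exact h3
  refine (h1.mono_left nhdsWithin_le_nhds).congr' ?_
  have h5 : ∀ᶠ p : ℝ in 𝓝[<] 1, 0 < p ∧ p < 1 := by
    have h6 : ∀ᶠ p : ℝ in 𝓝[<] (1 : ℝ), (0 : ℝ) < p :=
      nhdsWithin_le_nhds (eventually_gt_nhds (by norm_num))
    filter_upwards [h6, self_mem_nhdsWithin] with p a b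
    exact ⟨a, b⟩
  filter_upwards [h5] with p hp
  obtain ⟨hp0, hp1⟩ := hp
  have e1 : Real.sqrt (1 - p * p) = Real.sqrt (1 + p) * Real.sqrt (1 - p) := by
    rw [← Real.sqrt_mul (by linarith)]
    congr 1
    ring
  have e2 : Real.sqrt ((1 + p) / 2) = Real.sqrt (1 + p) / Real.sqrt 2 :=
    Real.sqrt_div (by linarith) 2
  have e3 : 0 < Real.sqrt (1 - p) := Real.sqrt_pos.2 (by linarith)
  have e4 : 0 < Real.sqrt 2 := Real.sqrt_pos.2 (by norm_num)
  have e5 : Real.sqrt (1 - p * p) < 1 := by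
    rw [Real.sqrt_lt' one_pos]
    nlinarith
  have e6 : 0 < 1 - Real.sqrt (1 - p * p) := by linarith
  unfold cst Pool.Agent.W533.LP.mean
  rw [e2]
  rw [e1] at e6 ⊢
  field_simp

/-- The parameters exist. -/
theorem exists_near {s : ℕ} (hs : 5 ≤ s) : ∃ p₀ < (1 : ℝ), ∀ p : unitInterval, p₀ < (p : ℝ) →
    (p : ℝ) < 1 → ∃ k, Near p s (Real.sqrt (1 - p)) k := by
  set M : ℝ := 16 * (2 * s + 1) * Real.exp 8 with hM
  have hM0 : 0 < M := by positivity
  refine ⟨1 - min (1 / 4) (1 / M ^ s) ^ 2, ?_, ?_⟩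
  · have : 0 < min (1 / 4) (1 / M ^ s) ^ 2 := by
      have : 0 < min (1 / 4) (1 / M ^ s) := lt_min (by norm_num) (by positivity)
      positivity
    linarith
  · intro p hp hp1
    have hm0 : 0 < min (1 / 4) (1 / M ^ s) := lt_min (by norm_num) (by positivity)
    have h0 : 0 < Real.sqrt (1 - p) := Real.sqrt_pos.2 (by linarith)
    have h1 : Real.sqrt (1 - p) ≤ min (1 / 4) (1 / M ^ s) := by
      rw [Real.sqrt_le_left hm0.le]
      linarith
    have h2 : Real.sqrt (1 - p) ≤ 1 / 4 := h1.trans (min_le_left _ _)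
    have h3 : Real.sqrt (1 - p) ≤ 1 / M ^ s := h1.trans (min_le_right _ _)
    have hs0 : s ≠ 0 := by omega
    refine ⟨(1 / Real.sqrt (1 - p)) ^ ((s : ℝ)⁻¹), h0, by linarith, Real.sq_sqrt (by linarith), hs,
      Real.rpow_inv_natCast_pow (by positivity) hs0, ?_⟩
    rw [← hM]
    calc M = (M ^ s) ^ ((s : ℝ)⁻¹) := (Real.pow_rpow_inv_natCast hM0.le hs0).symm
      _ ≤ (1 / Real.sqrt (1 - p)) ^ ((s : ℝ)⁻¹) := by
          refine Real.rpow_le_rpow (by positivity) ?_ (by positivity)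
          rw [le_div_iff₀ h0]
          rw [le_div_iff₀ (by positivity)] at h3
          linarith

/-- **Convergence in probability.** -/
theorem in_probability {δ : ℝ} (hδ : 0 < δ) : ∃ p₀ < (1 : ℝ), ∀ p : unitInterval, p₀ < (p : ℝ) →
    (p : ℝ) < 1 → Tendsto (fun n : ℕ => (perc p).real
      {ω | δ < |(1 - (V n ω : ℝ) / (2 * n)) / Real.sqrt (2 * (1 - p)) - 1|}) atTop (𝓝 0) := by
  set ε : ℝ := min δ 1 / 10 with hε
  have hmin : 0 < min δ 1 := lt_min hδ one_pos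
  have hε0 : 0 < ε := by positivity
  have hε1 : ε ≤ 1 / 10 := by
    have := min_le_right δ 1
    rw [hε]
    linarith
  have hε6 : 6 * ε ≤ δ := by
    have := min_le_left δ 1
    rw [hε]
    linarith
  obtain ⟨s, hs⟩ := exists_nat_ge (max 5 (8 / ε))
  have hs5 : (5 : ℝ) ≤ s := (le_max_left _ _).trans hs
  have hs5' : 5 ≤ s := by exact_mod_cast hs5
  have hs8 : 8 ≤ ε * s := by
    have := (le_max_right _ _).trans hs
    rw [div_le_iff₀ hε0] at this
    linarith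
  obtain ⟨p₁, hp₁, hN⟩ := exists_near hs5'
  have hr := ratio_tendsto
  have hev : ∀ᶠ p : ℝ in 𝓝[<] 1,
      |cst (1 - p * p) / 2 / (Real.sqrt 2 * Real.sqrt (1 - p)) - 1| < ε := by
    have := hr.eventually (Metric.ball_mem_nhds 1 hε0)
    filter_upwards [this] with p hp
    rw [← Real.dist_eq]
    exact hp
  obtain ⟨p₂, hp₂, hsub⟩ := (mem_nhdsLT_iff_exists_Ioo_subset).1 hev
  have hp₂' : p₂ < 1 := hp₂
  refine ⟨max (max p₁ p₂) 0, max_lt (max_lt hp₁ hp₂') one_pos, fun p hp hp1 => ?_⟩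
  have hpp₁ : p₁ < p := lt_of_le_of_lt ((le_max_left _ _).trans (le_max_left _ _)) hp
  have hpp₂ : p₂ < p := lt_of_le_of_lt ((le_max_right _ _).trans (le_max_left _ _)) hp
  have hp0 : 0 < (p : ℝ) := lt_of_le_of_lt (le_max_right _ _) hp
  obtain ⟨k, hNk⟩ := hN p hpp₁ hp1
  have hrat : |cst (1 - (p : ℝ) * p) / 2 / (Real.sqrt 2 * Real.sqrt (1 - p)) - 1| < ε :=
    hsub ⟨hpp₂, hp1⟩
  set u : ℝ := Real.sqrt 2 * Real.sqrt (1 - p) with hu
  have hu0 : 0 < u := by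
    have e3 : 0 < Real.sqrt (1 - (p : ℝ)) := Real.sqrt_pos.2 (by linarith)
    have e4 : 0 < Real.sqrt 2 := Real.sqrt_pos.2 (by norm_num)
    positivity
  have hb : |cst (1 - (p : ℝ) * p) / 2 - u| ≤ ε * u := by
    have h1 : cst (1 - (p : ℝ) * p) / 2 - u = (cst (1 - (p : ℝ) * p) / 2 / u - 1) * u := by
      field_simp
    rw [h1, abs_mul, abs_of_pos hu0]
    exact mul_le_mul_of_nonneg_right hrat.le hu0.le
  have hc := core hNk hp0 hε0 hε1 (by linarith) (by linarith) hu hb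
  have hsq : Real.sqrt (2 * (1 - p)) = u := by
    rw [hu, Real.sqrt_mul (by norm_num)]
  refine squeeze_zero (fun n => measureReal_nonneg) (fun n => ?_) hc
  refine measureReal_mono ?_ (measure_ne_top _ _)
  intro ω hω
  have h1 : δ < |(1 - (V n ω : ℝ) / (2 * n)) / Real.sqrt (2 * (1 - p)) - 1| := hω
  rw [hsq] at h1
  exact lt_of_le_of_lt hε6 h1

theorem V_le_card (n : ℕ) (ω : Edge → Bool) : V n ω ≤ (boxE n).card := by
  obtain ⟨W, hW⟩ := trivial_cut n
  exact (V_le hW).trans (Finset.card_le_card (Finset.filter_subset _ _))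

/-- the limit in `L¹` satisfies the asymptotics -/
theorem main (v : ℝ → ℝ)
    (hv : ∀ p : unitInterval, 0 < (p : ℝ) → (p : ℝ) < 1 →
      Tendsto (fun n : ℕ => ∫ ω, |(V n ω : ℝ) / (2 * n) - v p| ∂(perc p)) atTop (𝓝 0)) :
    Tendsto (fun p : ℝ => (1 - v p) / Real.sqrt (2 * (1 - p))) (𝓝[<] 1) (𝓝 1) := by
  rw [Metric.tendsto_nhds]
  intro δ hδ
  obtain ⟨p₀, hp₀, hin⟩ := in_probability (show 0 < δ / 4 by linarith)
  have hev : ∀ᶠ p : ℝ in 𝓝[<] 1, max p₀ 0 < p ∧ p < 1 := by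
    have h6 : ∀ᶠ p : ℝ in 𝓝[<] (1 : ℝ), max p₀ 0 < p :=
      nhdsWithin_le_nhds (eventually_gt_nhds (max_lt hp₀ one_pos))
    filter_upwards [h6, self_mem_nhdsWithin] with p a b
    exact ⟨a, b⟩
  filter_upwards [hev] with p hp
  obtain ⟨hpm, hp1⟩ := hp
  have hpp₀ : p₀ < p := lt_of_le_of_lt (le_max_left _ _) hpm
  have hp0 : 0 < p := lt_of_le_of_lt (le_max_right _ _) hpm
  obtain ⟨P, hP⟩ : ∃ P : unitInterval, (P : ℝ) = p := ⟨⟨p, hp0.le, hp1.le⟩, rfl⟩
  subst hP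
  have h1 := hin P hpp₀ hp1
  have h2 := hv P hp0 hp1
  set u := Real.sqrt (2 * (1 - (P : ℝ))) with hu
  have hu0 : 0 < u := Real.sqrt_pos.2 (by linarith)
  -- choose n
  have e1 := h1.eventually (eventually_lt_nhds (show (0 : ℝ) < 1 / 2 by norm_num))
  have e2 := h2.eventually (eventually_lt_nhds (show (0 : ℝ) < δ / 4 * u * (1 / 2) by positivity))
  obtain ⟨n, ⟨hn1, hn2⟩⟩ := (e1.and e2).exists
  have hVm : Measurable fun ω : Edge → Bool => (V n ω : ℝ) :=
    (measurable_of_countable (fun m : ℕ => (m : ℝ))).comp (measurable_V n)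
  have hint : Integrable (fun ω => |(V n ω : ℝ) / (2 * n) - v P|) (perc P) := by
    refine Integrable.abs (Integrable.sub (Integrable.div_const ?_ _) (integrable_const _))
    refine Integrable.of_bound hVm.aestronglyMeasurable ((boxE n).card : ℝ) ?_
    refine Eventually.of_forall fun ω => ?_
    rw [Real.norm_of_nonneg (Nat.cast_nonneg _)]
    exact_mod_cast V_le_card n ω
  have hmk := mul_meas_ge_le_integral_of_nonneg (μ := perc P)
    (Eventually.of_forall fun ω => abs_nonneg ((V n ω : ℝ) / (2 * n) - v P)) hint (δ / 4 * u)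
  have hB : (perc P).real {ω | δ / 4 * u ≤ |(V n ω : ℝ) / (2 * n) - v P|} < 1 / 2 := by
    have h3 : δ / 4 * u * (perc P).real {ω | δ / 4 * u ≤ |(V n ω : ℝ) / (2 * n) - v P|} <
        δ / 4 * u * (1 / 2) := lt_of_le_of_lt hmk hn2
    exact lt_of_mul_lt_mul_left h3 (by positivity)
  -- a good configuration
  obtain ⟨ω, hω⟩ : ∃ ω : Edge → Bool,
      ω ∉ {ω | δ / 4 < |(1 - (V n ω : ℝ) / (2 * n)) / u - 1|} ∪
        {ω | δ / 4 * u ≤ |(V n ω : ℝ) / (2 * n) - v P|} := by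
    by_contra hcon
    push Not at hcon
    have h4 : {ω | δ / 4 < |(1 - (V n ω : ℝ) / (2 * n)) / u - 1|} ∪
        {ω | δ / 4 * u ≤ |(V n ω : ℝ) / (2 * n) - v P|} = Set.univ := Set.eq_univ_of_forall hcon
    have h5 := measureReal_union_le (μ := perc P)
      {ω | δ / 4 < |(1 - (V n ω : ℝ) / (2 * n)) / u - 1|}
      {ω | δ / 4 * u ≤ |(V n ω : ℝ) / (2 * n) - v P|}
    rw [h4, probReal_univ] at h5
    linarith
  simp only [Set.mem_union, not_or] at hω
  have g1 : |(1 - (V n ω : ℝ) / (2 * n)) / u - 1| ≤ δ / 4 := not_lt.1 hω.1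
  have g2 : |(V n ω : ℝ) / (2 * n) - v P| < δ / 4 * u := not_le.1 hω.2
  rw [Real.dist_eq]
  have g3 : (1 - v P) / u - 1 = ((1 - (V n ω : ℝ) / (2 * n)) / u - 1) +
      ((V n ω : ℝ) / (2 * n) - v P) / u := by
    field_simp
    ring
  rw [g3]
  refine lt_of_le_of_lt (abs_add_le _ _) ?_
  have g4 : |((V n ω : ℝ) / (2 * n) - v P) / u| < δ / 4 := by
    rw [abs_div, abs_of_pos hu0, div_lt_iff₀ hu0]
    exact g2
  linarith

end Q292.OPF
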